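import Pool.Agent.LongJames.Order

set_option autoImplicit false

/-!
The topological core: a compact set of functions of bounded quadratic variation on `[0, ω₂]`
containing the step functions is not Valdivia.
-/

namespace Pool.Agent.LongJames

open Cardinal Set Topology

universe u v w

/-- A continuous function on a compact space is determined by countably many members of a
separating family of continuous functions. -/
theorem exists_countable_det {K : Type u} {S : Type v} [TopologicalSpace K] [CompactSpace K]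
    (e : K → S → ℝ) (he : ∀ s, Continuous fun x => e x s) (hinj : Function.Injective e)
    (φ : K → ℝ) (hφ : Continuous φ) :
    ∃ S0 : Set S, S0.Countable ∧ ∀ x y, (∀ s ∈ S0, e x s = e y s) → φ x = φ y := by
  have step : ∀ n : ℕ, ∃ F : Finset S, ∀ x y, (∀ s ∈ F, e x s = e y s) →
      |φ x - φ y| < 1 / ((n : ℝ) + 1) := by
    intro n
    let Kn : Set (K × K) := {p | 1 / ((n : ℝ) + 1) ≤ |φ p.1 - φ p.2|}
    have hKn : IsCompact Kn := by
      refine (isClosed_le continuous_const ?_).isCompact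
      exact ((hφ.comp continuous_fst).sub (hφ.comp continuous_snd)).abs
    let U : S → Set (K × K) := fun s => {p | e p.1 s ≠ e p.2 s}
    have hU : ∀ s, IsOpen (U s) := fun s =>
      isOpen_ne_fun ((he s).comp continuous_fst) ((he s).comp continuous_snd)
    have hcov : Kn ⊆ ⋃ s, U s := by
      rintro ⟨x, y⟩ hxy
      by_contra hcon
      simp only [mem_iUnion, not_exists] at hcon
      have hxy' : x = y := hinj (funext fun s => by
        by_contra hne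
        exact hcon s hne)
      subst hxy'
      have h0 : (0 : ℝ) < 1 / ((n : ℝ) + 1) := by positivity
      have h1 : 1 / ((n : ℝ) + 1) ≤ |φ x - φ x| := hxy
      rw [sub_self, abs_zero] at h1
      linarith
    obtain ⟨F, hF⟩ := hKn.elim_finite_subcover U hU hcov
    refine ⟨F, fun x y hxy => ?_⟩
    by_contra hcon
    push Not at hcon
    have hmem : (x, y) ∈ Kn := hcon
    have := hF hmem
    simp only [mem_iUnion] at this
    obtain ⟨s, hs, hne⟩ := this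
    exact hne (hxy s hs)
  choose F hF using step
  refine ⟨⋃ n, (F n : Set S), countable_iUnion fun n => (F n).countable_toSet, fun x y hxy => ?_⟩
  by_contra hne
  have hpos : 0 < |φ x - φ y| := abs_pos.2 (sub_ne_zero.2 hne)
  obtain ⟨n, hn⟩ := exists_nat_one_div_lt hpos
  have := hF n x y fun s hs => hxy s (mem_iUnion.2 ⟨n, hs⟩)
  linarith

variable {L : Type u} [LinearOrder L]

/-- The squares of the increments of `f` along monotone sequences sum up to at most `K`. -/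
def VarLe (f : L → ℝ) (K : ℝ) : Prop :=
  ∀ a : ℕ → L, Monotone a → ∀ n : ℕ, ∑ i ∈ Finset.range n, (f (a (i + 1)) - f (a i)) ^ 2 ≤ K

theorem VarLe.pairs {f : L → ℝ} {K : ℝ} (hf : VarLe f K) (b b' : ℕ → L) (h1 : ∀ i, b i ≤ b' i)
    (h2 : ∀ i, b' i ≤ b (i + 1)) (n : ℕ) :
    ∑ i ∈ Finset.range n, (f (b' i) - f (b i)) ^ 2 ≤ K := by
  let a : ℕ → L := fun k => if k % 2 = 0 then b (k / 2) else b' (k / 2)
  have ha0 : ∀ i, a (2 * i) = b i := by
    intro i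
    simp only [a]
    rw [if_pos (by omega)]
    congr 1
    omega
  have ha1 : ∀ i, a (2 * i + 1) = b' i := by
    intro i
    simp only [a]
    rw [if_neg (by omega)]
    congr 1
    omega
  have ha : Monotone a := by
    refine monotone_nat_of_le_succ fun k => ?_
    rcases Nat.even_or_odd' k with ⟨i, rfl | rfl⟩
    · rw [ha0, ha1]; exact h1 i
    · rw [ha1]
      have : 2 * i + 1 + 1 = 2 * (i + 1) := by ring
      rw [this, ha0]
      exact h2 i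
  have key : ∀ n : ℕ, ∑ i ∈ Finset.range n, (f (b' i) - f (b i)) ^ 2 ≤
      ∑ i ∈ Finset.range (2 * n), (f (a (i + 1)) - f (a i)) ^ 2 := by
    intro n
    induction n with
    | zero => simp
    | succ n ih =>
      rw [Finset.sum_range_succ, show 2 * (n + 1) = 2 * n + 1 + 1 by ring,
        Finset.sum_range_succ, Finset.sum_range_succ, ha0, ha1]
      have : 0 ≤ (f (a (2 * n + 1 + 1)) - f (b' n)) ^ 2 := sq_nonneg _
      linarith
  exact (key n).trans (hf a ha (2 * n))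

variable [OrderTop L]

/-- A function of bounded variation is eventually constant below the top. -/
theorem VarLe.eventually_const (hL : Long L) {f : L → ℝ} {K : ℝ} (hf : VarLe f K) :
    ∃ t : L, t < ⊤ ∧ ∀ β β', t ≤ β → β < ⊤ → t ≤ β' → β' < ⊤ → f β = f β' := by
  classical
  obtain ⟨e0, he0, _⟩ := hL.bdd ∅ (small_of_countable) (by simp)
  have step : ∀ n : ℕ, ∃ η : L, η < ⊤ ∧ ∀ β β', η ≤ β → β ≤ β' → β' < ⊤ →
      |f β' - f β| < 1 / ((n : ℝ) + 1) := by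
    intro n
    set ε : ℝ := 1 / ((n : ℝ) + 1) with hε
    have hεp : 0 < ε := by positivity
    by_contra hcon
    push Not at hcon
    choose! b b' h1 h2 h3 h4 using hcon
    -- iterate
    let e : ℕ → L := fun k => Nat.rec e0 (fun _ x => b' x) k
    have hes : ∀ k, e (k + 1) = b' (e k) := fun k => rfl
    have het : ∀ k, e k < ⊤ := by
      intro k
      induction k with
      | zero => exact he0
      | succ k ih => rw [hes]; exact h3 _ ih
    have hb := hf.pairs (fun i => b (e i)) (fun i => b' (e i)) (fun i => h2 _ (het i))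
      (fun i => by
        have := h1 (e (i + 1)) (het (i + 1))
        rwa [hes] at this)
    obtain ⟨m, hm⟩ := exists_nat_gt (K / ε ^ 2)
    have h5 := hb m
    have h6 : (m : ℝ) * ε ^ 2 ≤ ∑ i ∈ Finset.range m, (f (b' (e i)) - f (b (e i))) ^ 2 := by
      have : ∑ _i ∈ Finset.range m, ε ^ 2 ≤
          ∑ i ∈ Finset.range m, (f (b' (e i)) - f (b (e i))) ^ 2 := by
        refine Finset.sum_le_sum fun i _ => ?_
        have h7 := h4 (e i) (het i)
        rw [← sq_abs (f (b' (e i)) - f (b (e i)))]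
        exact pow_le_pow_left₀ hεp.le h7 2
      simpa using this
    rw [div_lt_iff₀ (by positivity)] at hm
    linarith
  choose η hη1 hη2 using step
  have := (Set.countable_range η).to_subtype
  obtain ⟨t, ht, htb⟩ := hL.bdd (Set.range η) small_of_countable
    (by rintro _ ⟨n, rfl⟩; exact hη1 n)
  refine ⟨t, ht, ?_⟩
  have main : ∀ β β', t ≤ β → β ≤ β' → β' < ⊤ → f β = f β' := by
    intro β β' h1 h2 h3
    by_contra hne
    have hpos : 0 < |f β' - f β| := abs_pos.2 (sub_ne_zero.2 fun h => hne h.symm)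
    obtain ⟨n, hn⟩ := exists_nat_one_div_lt hpos
    have := hη2 n β β' ((htb _ ⟨n, rfl⟩).le.trans h1) h2 h3
    linarith
  intro β β' h1 h2 h3 h4
  rcases le_total β β' with h | h
  · exact main β β' h1 h h4
  · exact (main β' β h3 h h2).symm

/-- The data attached to a continuous injection of a compact space into two function spaces. -/
structure Data (B : Type v) (L : Type u) (Γ : Type w) [TopologicalSpace B] [LinearOrder L] where
  /-- functions on `L` -/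
  Φ : B → L → ℝ
  /-- functions on `Γ` -/
  h : B → Γ → ℝ
  Φc : ∀ α, Continuous fun F => Φ F α
  hc : ∀ γ, Continuous fun F => h F γ
  Φi : Function.Injective Φ
  hi : Function.Injective h
  /-- the variation bound -/
  K : ℝ
  var : ∀ F, VarLe (Φ F) K
  /-- countably many coordinates in `Γ` determine the value at `α` -/
  Gam : L → Set Γ
  Gamc : ∀ α, (Gam α).Countable
  Gamd : ∀ α F G, (∀ γ ∈ Gam α, h F γ = h G γ) → Φ F α = Φ G α
  /-- countably many values determine the coordinate `γ` -/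
  Gs : Γ → Set L
  Gsc : ∀ γ, (Gs γ).Countable
  Gsd : ∀ γ F G, (∀ α ∈ Gs γ, Φ F α = Φ G α) → h F γ = h G γ

namespace Data

variable {B : Type v} {Γ : Type w} [TopologicalSpace B] (D : Data B L Γ)

/-- The coordinates attached to the points below `δ` and to the top. -/
def J (δ : L) : Set Γ := {γ | ∃ α, (α < δ ∨ α = ⊤) ∧ γ ∈ D.Gam α}

theorem J_mono {δ δ' : L} (h : δ ≤ δ') : D.J δ ⊆ D.J δ' := by
  rintro γ ⟨α, hα, hγ⟩
  exact ⟨α, hα.imp_left fun h' => h'.trans_le h, hγ⟩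

theorem J_subset_top (δ : L) : D.J δ ⊆ D.J ⊤ := D.J_mono le_top

/-- The elements with countable support in `J ⊤`. -/
def A : Set B := {F | {γ | γ ∈ D.J ⊤ ∧ D.h F γ ≠ 0}.Countable}

/-- Elements agreeing on all of `J ⊤` are equal. -/
theorem eq_of_J {F G : B} (hFG : ∀ γ ∈ D.J ⊤, D.h F γ = D.h G γ) : F = G := by
  refine D.Φi (funext fun α => D.Gamd α F G fun γ hγ => hFG γ ⟨α, ?_, hγ⟩)
  exact (lt_or_eq_of_le le_top)

/-- Elements agreeing on `J δ` agree at all points below `δ` and at the top. -/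
theorem Φ_eq_of_J {δ : L} {F G : B} (hFG : ∀ γ ∈ D.J δ, D.h F γ = D.h G γ) {α : L}
    (hα : α < δ ∨ α = ⊤) : D.Φ F α = D.Φ G α :=
  D.Gamd α F G fun γ hγ => hFG γ ⟨α, hα, hγ⟩

theorem small_J (hL : Long L) {δ : L} (hδ : δ < ⊤) : HasCardinalLT (D.J δ) kap := by
  have h1 : HasCardinalLT (Option (Iio δ)) kap :=
    (hasCardinalLT_option_iff _ _ aleph0_le_kap).2 (hL.seg δ hδ)
  let f : Option (Iio δ) → Set Γ := fun o => match o with
    | none => D.Gam ⊤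
    | some α => D.Gam α.1
  have h2 : HasCardinalLT (⋃ o, f o : Set Γ) kap := by
    refine hasCardinalLT_iUnion f h1 fun o => ?_
    cases o with
    | none =>
      have := (D.Gamc ⊤).to_subtype
      exact small_of_countable
    | some α =>
      have := (D.Gamc α.1).to_subtype
      exact small_of_countable
  refine h2.of_injective (fun γ : D.J δ => ⟨γ.1, ?_⟩) ?_
  · obtain ⟨α, hα, hγ⟩ := γ.2
    rcases hα with hα | rfl
    · exact mem_iUnion.2 ⟨some ⟨α, hα⟩, hγ⟩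
    · exact mem_iUnion.2 ⟨none, hγ⟩
  · intro a b hab
    apply Subtype.ext
    simpa using hab

/-- The closing-off property between `δ` and `δ'`. -/
structure Step (δ δ' : L) : Prop where
  approx : ∀ φ : Finset Γ, (∀ γ ∈ φ, γ ∈ D.J δ) → ∀ F : B, ∀ ε : ℝ, 0 < ε →
    ∃ a : B, (∀ γ ∈ φ, |D.h a γ - D.h F γ| < ε) ∧
      (∀ γ ∈ D.J ⊤, D.h a γ ≠ 0 → γ ∈ D.J δ') ∧
      (∀ β β', δ' ≤ β → β < ⊤ → δ' ≤ β' → β' < ⊤ → D.Φ a β = D.Φ a β')
  supp : ∀ γ ∈ D.J δ, ∀ α ∈ D.Gs γ, α < δ' ∨ α = ⊤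

theorem Step.mono {δ δ' δ'' : L} (h : D.Step δ δ') (h' : δ' ≤ δ'') : D.Step δ δ'' where
  approx := by
    intro φ hφ F ε hε
    obtain ⟨a, h1, h2, h3⟩ := h.approx φ hφ F ε hε
    exact ⟨a, h1, fun γ hγ hne => D.J_mono h' (h2 γ hγ hne),
      fun β β' k1 k2 k3 k4 => h3 β β' (h'.trans k1) k2 (h'.trans k3) k4⟩
  supp := fun γ hγ α hα => (h.supp γ hγ α hα).imp_left fun k => k.trans_le h'

/-- Each element of `A` has its support in some `J t` and is constant on `[t, ⊤)`, `t < ⊤`. -/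
theorem exists_t (hL : Long L) {a : B} (ha : a ∈ D.A) :
    ∃ t : L, t < ⊤ ∧ (∀ γ ∈ D.J ⊤, D.h a γ ≠ 0 → γ ∈ D.J t) ∧
      (∀ β β', t ≤ β → β < ⊤ → t ≤ β' → β' < ⊤ → D.Φ a β = D.Φ a β') := by
  classical
  obtain ⟨t1, ht1, hc1⟩ := (D.var a).eventually_const hL
  have hJ : ∀ γ ∈ D.J ⊤, ∃ α : L, γ ∈ D.Gam α := by
    rintro γ ⟨α, _, hγ⟩
    exact ⟨α, hγ⟩
  have hne : Nonempty L := ⟨⊤⟩
  choose! g hg using hJ
  let S : Set L := {α | α < ⊤ ∧ ∃ γ, (γ ∈ D.J ⊤ ∧ D.h a γ ≠ 0) ∧ g γ = α}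
  have hS : S.Countable := by
    have h1 : (g '' {γ | γ ∈ D.J ⊤ ∧ D.h a γ ≠ 0}).Countable := Set.Countable.image ha g
    refine h1.mono ?_
    rintro α ⟨_, γ, hγ, rfl⟩
    exact ⟨γ, hγ, rfl⟩
  have := hS.to_subtype
  obtain ⟨t2, ht2, hb⟩ := hL.bdd S small_of_countable (fun s hs => hs.1)
  refine ⟨max t1 t2, max_lt ht1 ht2, ?_, ?_⟩
  · intro γ hγ hne
    refine ⟨g γ, ?_, hg γ hγ⟩
    rcases lt_or_eq_of_le (le_top (a := g γ)) with h | h
    · exact Or.inl ((hb _ ⟨h, γ, ⟨hγ, hne⟩, rfl⟩).trans_le (le_max_right _ _))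
    · exact Or.inr h
  · intro β β' k1 k2 k3 k4
    exact hc1 β β' ((le_max_left _ _).trans k1) k2 ((le_max_left _ _).trans k3) k4

theorem exists_step (hL : Long L) (hA : Dense D.A) {δ : L} (hδ : δ < ⊤) :
    ∃ δ' : L, δ < δ' ∧ δ' < ⊤ ∧ D.Step δ δ' := by
  classical
  -- countable approximating sets
  have hD : ∀ φ : Finset Γ, ∃ Dφ : Set B, Dφ.Countable ∧ Dφ ⊆ D.A ∧
      ∀ F : B, ∀ ε : ℝ, 0 < ε → ∃ a ∈ Dφ, ∀ γ ∈ φ, |D.h a γ - D.h F γ| < ε := by
    intro φ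
    let r : B → (φ → ℝ) := fun F γ => D.h F γ.1
    have hr : Continuous r := continuous_pi fun γ => D.hc γ.1
    obtain ⟨t, hts, htc, htd⟩ :=
      (TopologicalSpace.IsSeparable.of_separableSpace (r '' D.A)).exists_countable_dense_subset
    have hpre : ∀ y ∈ t, ∃ a ∈ D.A, r a = y := fun y hy => hts hy
    choose p hp1 hp2 using hpre
    have := htc.to_subtype
    refine ⟨Set.range (fun y : t => p y.1 y.2), Set.countable_range _, ?_, ?_⟩
    · rintro _ ⟨y, rfl⟩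
      exact hp1 y.1 y.2
    · intro F ε hε
      have h1 : r F ∈ closure t := by
        have h2 : r F ∈ closure (r '' D.A) :=
          image_closure_subset_closure_image hr ⟨F, hA F, rfl⟩
        exact closure_minimal htd isClosed_closure h2
      obtain ⟨y, hy, hd⟩ := Metric.mem_closure_iff.1 h1 ε hε
      refine ⟨p y hy, ⟨⟨y, hy⟩, rfl⟩, fun γ hγ => ?_⟩
      have h3 := (dist_pi_lt_iff hε).1 hd ⟨γ, hγ⟩
      have h4 : r (p y hy) ⟨γ, hγ⟩ = y ⟨γ, hγ⟩ := by rw [hp2 y hy]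
      rw [dist_comm, Real.dist_eq, ← h4] at h3
      exact h3
  choose Dφ hD1 hD2 hD3 using hD
  choose! t ht1 ht2 ht3 using fun (a : B) (ha : a ∈ D.A) => D.exists_t hL ha
  -- the set to be bounded
  let S1 : Set L := ⋃ φ : Finset (D.J δ), t '' (Dφ (φ.map (Function.Embedding.subtype _)))
  let S2 : Set L := {α | α < ⊤ ∧ ∃ γ : D.J δ, α ∈ D.Gs γ.1}
  have hS1 : HasCardinalLT S1 kap := by
    refine hasCardinalLT_iUnion _ (small_finset (D.small_J hL hδ)) fun φ => ?_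
    have := ((hD1 (φ.map (Function.Embedding.subtype _))).image t).to_subtype
    exact small_of_countable
  have hS2 : HasCardinalLT S2 kap := by
    have h1 : HasCardinalLT (⋃ γ : D.J δ, D.Gs γ.1 : Set L) kap := by
      refine hasCardinalLT_iUnion _ (D.small_J hL hδ) fun γ => ?_
      have := (D.Gsc γ.1).to_subtype
      exact small_of_countable
    refine h1.of_injective (fun α : S2 => ⟨α.1, ?_⟩) ?_
    · obtain ⟨_, γ, hγ⟩ := α.2
      exact mem_iUnion.2 ⟨γ, hγ⟩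
    · intro a b hab
      apply Subtype.ext
      simpa using hab
  have hS12 := hasCardinalLT_union aleph0_le_kap hS1 hS2
  have hS3 := hasCardinalLT_union aleph0_le_kap hS12
    (small_of_countable : HasCardinalLT ({δ} : Set L) kap)
  obtain ⟨η, hη, hb⟩ := hL.bdd ((S1 ∪ S2) ∪ {δ}) hS3 (by
    rintro s ((hs | hs) | hs)
    · obtain ⟨φ, a, ha, rfl⟩ := mem_iUnion.1 hs
      exact ht1 a (hD2 _ ha)
    · exact hs.1
    · rw [mem_singleton_iff.1 hs]; exact hδ)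
  refine ⟨η, hb δ (Or.inr rfl), hη, ⟨?_, ?_⟩⟩
  · intro φ hφ F ε hε
    obtain ⟨a, ha, hclose⟩ := hD3 φ F ε hε
    have haA := hD2 _ ha
    have hφ' : ((φ.subtype (fun γ => γ ∈ D.J δ)).map (Function.Embedding.subtype _)) = φ := by
      rw [Finset.subtype_map]
      exact Finset.filter_true_of_mem hφ
    have hta : t a < η := by
      refine hb _ (Or.inl (Or.inl (mem_iUnion.2 ⟨φ.subtype (fun γ => γ ∈ D.J δ), a, ?_, rfl⟩)))
      rw [hφ']
      exact ha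
    exact ⟨a, hclose, fun γ hγ hne => D.J_mono hta.le (ht2 a haA γ hγ hne),
      fun β β' k1 k2 k3 k4 => ht3 a haA β β' (hta.le.trans k1) k2 (hta.le.trans k3) k4⟩
  · intro γ hγ α hα
    rcases lt_or_eq_of_le (le_top (a := α)) with h | h
    · exact Or.inl (hb _ (Or.inl (Or.inr ⟨h, ⟨γ, hγ⟩, hα⟩)))
    · exact Or.inr h

theorem Step.anti {η δ δ' : L} (h : D.Step δ δ') (h' : η ≤ δ) : D.Step η δ' where
  approx := fun φ hφ F ε hε => h.approx φ (fun γ hγ => D.J_mono h' (hφ γ hγ)) F ε hε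
  supp := fun γ hγ α hα => h.supp γ (D.J_mono h' hγ) α hα

/-- `δ` is closed under the closing-off operation. -/
structure Cl (δ : L) : Prop where
  pos : ∃ η, η < δ
  lt : δ < ⊤
  closed : ∀ η, η < δ → ∃ η', η < η' ∧ η' < δ ∧ D.Step η η'

theorem cl_of_lim {δ : L} (hδ : δ < ⊤) (hpos : ∃ η, η < δ) (h : LimOf {x | D.Cl x} δ) :
    D.Cl δ where
  pos := hpos
  lt := hδ
  closed := by
    intro η hη
    obtain ⟨u, hu, h1, h2⟩ := h η hη
    obtain ⟨η', k1, k2, k3⟩ := Cl.closed hu η h1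
    exact ⟨η', k1, k2.trans h2, k3⟩

theorem exists_cl [WellFoundedLT L] (hL : Long L) (hA : Dense D.A) (ξ : L) (hξ : ξ < ⊤) :
    ∃ δ ∈ {x | D.Cl x}, ξ < δ ∧ δ < ⊤ := by
  classical
  choose! s hs1 hs2 hs3 using fun (δ : L) (hδ : δ < ⊤) => D.exists_step hL hA hδ
  let e : ℕ → L := fun k => Nat.rec ξ (fun _ x => s x) k
  have hes : ∀ k, e (k + 1) = s (e k) := fun k => rfl
  have het : ∀ k, e k < ⊤ := by
    intro k
    induction k with
    | zero => exact hξ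
    | succ k ih => rw [hes]; exact hs2 _ ih
  have := (Set.countable_range e).to_subtype
  obtain ⟨η, hη, hηb⟩ := hL.bdd (Set.range e) small_of_countable
    (by rintro _ ⟨n, rfl⟩; exact het n)
  let δ : L := WellFounded.min (wellFounded_lt (α := L)) {x | ∀ i, e i < x}
    ⟨η, fun i => hηb _ ⟨i, rfl⟩⟩
  have hδ1 : ∀ i, e i < δ := WellFounded.min_mem (wellFounded_lt (α := L)) {x | ∀ i, e i < x} _
  have hδmin : ∀ x, (∀ i, e i < x) → δ ≤ x := fun x hx =>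
    not_lt.1 (WellFounded.not_lt_min (wellFounded_lt (α := L)) {x | ∀ i, e i < x} hx)
  refine ⟨δ, ⟨⟨ξ, hδ1 0⟩, (hδmin η fun i => hηb _ ⟨i, rfl⟩).trans_lt hη, ?_⟩, hδ1 0,
    (hδmin η fun i => hηb _ ⟨i, rfl⟩).trans_lt hη⟩
  intro x hx
  have : ¬ ∀ i, e i < x := fun h => absurd (hδmin x h) (not_le.2 hx)
  push Not at this
  obtain ⟨i, hi⟩ := this
  refine ⟨e (i + 1), ?_, hδ1 (i + 1), ?_⟩
  · rw [hes]; exact hi.trans_lt (hs1 _ (het i))
  · rw [hes]; exact Step.anti D (hs3 _ (het i)) hi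

theorem mem_J_of_cl {δ : L} (hδ : D.Cl δ) {γ : Γ} (hγ : γ ∈ D.J δ) : ∃ η, η < δ ∧ γ ∈ D.J η := by
  obtain ⟨α, hα, hγα⟩ := hγ
  rcases hα with hα | hα
  · obtain ⟨η', k1, k2, _⟩ := hδ.closed α hα
    exact ⟨η', k2, α, Or.inl k1, hγα⟩
  · obtain ⟨η, hη⟩ := hδ.pos
    exact ⟨η, hη, α, Or.inr hα, hγα⟩

theorem finset_J_of_cl {δ : L} (hδ : D.Cl δ) (φ : Finset Γ) (hφ : ∀ γ ∈ φ, γ ∈ D.J δ) :
    ∃ η, η < δ ∧ ∀ γ ∈ φ, γ ∈ D.J η := by
  classical
  induction φ using Finset.induction_on with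
  | empty =>
    obtain ⟨η, hη⟩ := hδ.pos
    exact ⟨η, hη, by simp⟩
  | insert γ φ hγ ih =>
    obtain ⟨η1, h1, h2⟩ := ih fun γ' hγ' => hφ γ' (Finset.mem_insert_of_mem hγ')
    obtain ⟨η2, h3, h4⟩ := D.mem_J_of_cl hδ (hφ γ (Finset.mem_insert_self _ _))
    refine ⟨max η1 η2, max_lt h1 h3, ?_⟩
    intro γ' hγ'
    rcases Finset.mem_insert.1 hγ' with rfl | hγ'
    · exact D.J_mono (le_max_right _ _) h4
    · exact D.J_mono (le_max_left _ _) (h2 γ' hγ')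

/-- `G` is the restriction of `F` to the coordinates in `J δ`. -/
def IsRho (δ : L) (F G : B) : Prop :=
  (∀ γ ∈ D.J δ, D.h G γ = D.h F γ) ∧ ∀ γ ∈ D.J ⊤, γ ∉ D.J δ → D.h G γ = 0

theorem IsRho.unique {δ : L} {F G G' : B} (h : D.IsRho δ F G) (h' : D.IsRho δ F G') : G = G' := by
  refine D.eq_of_J fun γ hγ => ?_
  by_cases hδ : γ ∈ D.J δ
  · rw [h.1 γ hδ, h'.1 γ hδ]
  · rw [h.2 γ hγ hδ, h'.2 γ hγ hδ]

/-- `G` is constant on `[δ, ⊤)`. -/
def Const (δ : L) (G : B) : Prop :=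
  ∀ β β', δ ≤ β → β < ⊤ → δ ≤ β' → β' < ⊤ → D.Φ G β = D.Φ G β'

theorem exists_rho [CompactSpace B] {δ : L} (hδ : D.Cl δ) (F : B) :
    ∃ G, D.IsRho δ F G ∧ D.Const δ G := by
  classical
  let t : Finset (D.J δ) × ℕ → Set B := fun p =>
    {G | (∀ γ ∈ p.1, |D.h G γ.1 - D.h F γ.1| ≤ 1 / ((p.2 : ℝ) + 1)) ∧
      (∀ γ ∈ D.J ⊤, γ ∉ D.J δ → D.h G γ = 0) ∧ D.Const δ G}
  have hclosed : ∀ p, IsClosed (t p) := by
    intro p
    have e1 : t p = (⋂ γ ∈ p.1, {G | |D.h G γ.1 - D.h F γ.1| ≤ 1 / ((p.2 : ℝ) + 1)}) ∩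
        ((⋂ γ ∈ {γ | γ ∈ D.J ⊤ ∧ γ ∉ D.J δ}, {G | D.h G γ = 0}) ∩
        (⋂ q ∈ {q : L × L | (δ ≤ q.1 ∧ q.1 < ⊤) ∧ δ ≤ q.2 ∧ q.2 < ⊤},
          {G | D.Φ G q.1 = D.Φ G q.2})) := by
      ext G
      simp only [t, Const, mem_inter_iff, mem_iInter, mem_ofPred_eq, Prod.forall]
      constructor
      · rintro ⟨h1, h2, h3⟩
        exact ⟨h1, fun γ hγ => h2 γ hγ.1 hγ.2, fun a b hab => h3 a b hab.1.1 hab.1.2 hab.2.1 hab.2.2⟩
      · rintro ⟨h1, h2, h3⟩
        exact ⟨h1, fun γ k1 k2 => h2 γ ⟨k1, k2⟩, fun a b k1 k2 k3 k4 => h3 a b ⟨⟨k1, k2⟩, k3, k4⟩⟩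
    rw [e1]
    refine IsClosed.inter ?_ (IsClosed.inter ?_ ?_)
    · exact isClosed_biInter fun γ _ =>
        isClosed_le ((D.hc γ.1).sub continuous_const).abs continuous_const
    · exact isClosed_biInter fun γ _ => isClosed_eq (D.hc γ) continuous_const
    · exact isClosed_biInter fun q _ => isClosed_eq (D.Φc q.1) (D.Φc q.2)
  have hne : ∀ p, (t p).Nonempty := by
    intro p
    let φ : Finset Γ := p.1.map (Function.Embedding.subtype _)
    have hφ : ∀ γ ∈ φ, γ ∈ D.J δ := by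
      intro γ hγ
      obtain ⟨x, _, rfl⟩ := Finset.mem_map.1 hγ
      exact x.2
    obtain ⟨η, hη, hηφ⟩ := D.finset_J_of_cl hδ φ hφ
    obtain ⟨η', k1, k2, k3⟩ := hδ.closed η hη
    obtain ⟨a, h1, h2, h3⟩ := k3.approx φ hηφ F (1 / ((p.2 : ℝ) + 1)) (by positivity)
    refine ⟨a, ?_, ?_, ?_⟩
    · intro γ hγ
      exact (h1 γ.1 (Finset.mem_map.2 ⟨γ, hγ, rfl⟩)).le
    · intro γ hγ hγδ
      by_contra hne
      exact hγδ (D.J_mono k2.le (h2 γ hγ hne))
    · intro β β' m1 m2 m3 m4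
      exact h3 β β' (k2.le.trans m1) m2 (k2.le.trans m3) m4
  have hdir : Directed (· ⊇ ·) t := by
    rintro ⟨φ1, n1⟩ ⟨φ2, n2⟩
    refine ⟨(φ1 ∪ φ2, max n1 n2), ?_, ?_⟩
    · rintro G ⟨h1, h2, h3⟩
      refine ⟨fun γ hγ => (h1 γ (Finset.mem_union_left _ hγ)).trans ?_, h2, h3⟩
      refine one_div_le_one_div_of_le (by positivity) ?_
      have : (n1 : ℝ) ≤ ((max n1 n2 : ℕ) : ℝ) := by exact_mod_cast le_max_left _ _
      linarith
    · rintro G ⟨h1, h2, h3⟩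
      refine ⟨fun γ hγ => (h1 γ (Finset.mem_union_right _ hγ)).trans ?_, h2, h3⟩
      refine one_div_le_one_div_of_le (by positivity) ?_
      have : (n2 : ℝ) ≤ ((max n1 n2 : ℕ) : ℝ) := by exact_mod_cast le_max_right _ _
      linarith
  obtain ⟨G, hG⟩ := IsCompact.nonempty_iInter_of_directed_nonempty_isCompact_isClosed t hdir hne
    (fun p => (hclosed p).isCompact) hclosed
  simp only [mem_iInter] at hG
  refine ⟨G, ⟨?_, ?_⟩, ?_⟩
  · intro γ hγ
    by_contra hne'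
    have hpos : 0 < |D.h G γ - D.h F γ| := abs_pos.2 (sub_ne_zero.2 hne')
    obtain ⟨n, hn⟩ := exists_nat_one_div_lt hpos
    have := (hG ({⟨γ, hγ⟩}, n)).1 ⟨γ, hγ⟩ (Finset.mem_singleton_self _)
    simp only at this
    linarith
  · exact (hG (∅, 0)).2.1
  · exact (hG (∅, 0)).2.2

theorem rho_continuous [CompactSpace B] {δ : L} (ρ : B → B) (hρ : ∀ F, D.IsRho δ F (ρ F)) :
    Continuous ρ := by
  classical
  let h' : B → (D.J ⊤ → ℝ) := fun F γ => D.h F γ.1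
  have hc' : Continuous h' := continuous_pi fun γ => D.hc γ.1
  have hi' : Function.Injective h' := fun F G hFG =>
    D.eq_of_J fun γ hγ => congrFun hFG ⟨γ, hγ⟩
  have hemb := hc'.isClosedEmbedding hi'
  rw [hemb.isInducing.continuous_iff]
  refine continuous_pi fun γ => ?_
  by_cases hγ : γ.1 ∈ D.J δ
  · have : (fun F => (h' ∘ ρ) F γ) = fun F => D.h F γ.1 := by
      funext F
      exact (hρ F).1 γ.1 hγ
    rw [this]
    exact D.hc γ.1
  · have : (fun F => (h' ∘ ρ) F γ) = fun _ => 0 := by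
      funext F
      exact (hρ F).2 γ.1 γ.2 hγ
    rw [this]
    exact continuous_const

/-- Near a good `ζ`, from the left, the elements of `A` are constant. -/
theorem left_const {ζ : L} (hζ : D.Cl ζ) (hζu : UncCof ζ) (hζl : LimOf {x | D.Cl x} ζ)
    (hex : ∀ δ, D.Cl δ → ∀ F, ∃ G, D.IsRho δ F G ∧ D.Const δ G) {F : B} (hF : F ∈ D.A)
    {G : B} (hG : D.IsRho ζ F G) :
    ∃ ξ, ξ < ζ ∧ ∀ α, ξ ≤ α → α < ζ → D.Φ F α = D.Φ G ζ := by
  classical
  have hne : Nonempty L := ⟨⊤⟩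
  choose! g hg1 hg2 using fun (γ : Γ) (hγ : γ ∈ D.J ζ) => D.mem_J_of_cl hζ hγ
  let S : Set L := g '' {γ | (γ ∈ D.J ⊤ ∧ D.h F γ ≠ 0) ∧ γ ∈ D.J ζ}
  have hS : S.Countable := by
    refine Set.Countable.image ?_ g
    have hF' : {γ | γ ∈ D.J ⊤ ∧ D.h F γ ≠ 0}.Countable := hF
    exact hF'.mono fun γ hγ => hγ.1
  obtain ⟨η, hη, hηb⟩ := hζu S hS (by rintro _ ⟨γ, hγ, rfl⟩; exact hg1 γ hγ.2)
  obtain ⟨ξ, hξc, hξ1, hξ2⟩ := hζl η hη
  obtain ⟨G', hG', hGc⟩ := hex ξ hξc F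
  have hGG : G = G' := by
    refine IsRho.unique D hG ⟨?_, ?_⟩
    · intro γ hγ
      by_cases hγξ : γ ∈ D.J ξ
      · exact hG'.1 γ hγξ
      · rw [hG'.2 γ (D.J_subset_top ζ hγ) hγξ]
        by_contra hne'
        apply hγξ
        have h1 : γ ∈ {γ | (γ ∈ D.J ⊤ ∧ D.h F γ ≠ 0) ∧ γ ∈ D.J ζ} :=
          ⟨⟨D.J_subset_top ζ hγ, fun h => hne' h.symm⟩, hγ⟩
        exact D.J_mono ((hηb _ ⟨γ, h1, rfl⟩).trans hξ1).le (hg2 γ hγ)
    · intro γ hγ hγζ
      exact hG'.2 γ hγ fun h => hγζ (D.J_mono hξ2.le h)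
  subst hGG
  refine ⟨ξ, hξ2, fun α h1 h2 => ?_⟩
  have e1 : D.Φ F α = D.Φ G α :=
    D.Φ_eq_of_J (δ := ζ) (fun γ hγ => (hG.1 γ hγ).symm) (Or.inl h2)
  rw [e1]
  exact hGc α ζ h1 (h2.trans hζ.lt) hξ2.le hζ.lt

theorem no_valdivia [WellFoundedLT L] [CompactSpace B] (hL : Long L) (hA : Dense D.A) {c : ℝ}
    (hc : 0 < c) (hstep : ∀ α β : L, α < β → β < ⊤ → ∀ s : ℝ, |s| = c →
      ∃ F : B, ∀ γ, D.Φ F γ = if α < γ ∧ γ ≤ β then s else 0) : False := by
  classical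
  have hex : ∀ δ, D.Cl δ → ∀ F, ∃ G, D.IsRho δ F G ∧ D.Const δ G :=
    fun δ hδ F => D.exists_rho hδ F
  choose ρ hρ1 hρ2 using hex
  -- good points of uncountable cofinality
  let C1 : Set L := {ζ | D.Cl ζ ∧ UncCof ζ ∧ LimOf {x | D.Cl x} ζ}
  have hC1 : ∀ ξ : L, ξ < ⊤ → ∃ u ∈ C1, ξ < u ∧ u < ⊤ := by
    intro ξ hξ
    obtain ⟨ζ, h1, h2, h3, h4⟩ := exists_limit hL {x | D.Cl x} (D.exists_cl hL hA) ξ hξ
    exact ⟨ζ, ⟨D.cl_of_lim h2 ⟨ξ, h1⟩ h4, h3, h4⟩, h1, h2⟩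
  obtain ⟨e0, he0, _⟩ := hL.bdd ∅ (small_of_countable) (by simp)
  obtain ⟨ζs, hs1, hs2, hs3, hs4⟩ := exists_limit hL C1 hC1 e0 he0
  have hsl : LimOf {x | D.Cl x} ζs := by
    intro η hη
    obtain ⟨u, hu, h⟩ := hs4 η hη
    exact ⟨u, hu.1, h⟩
  have hsc : D.Cl ζs := D.cl_of_lim hs2 ⟨e0, hs1⟩ hsl
  -- the functional `Λ`
  let Λ : B → ℝ := fun F => D.Φ (ρ ζs hsc F) ζs
  have hΛc : Continuous Λ := (D.Φc ζs).comp (D.rho_continuous (ρ ζs hsc) (hρ1 ζs hsc))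
  have hself : ∀ G : B, (∀ γ ∈ D.J ⊤, γ ∉ D.J ζs → D.h G γ = 0) → ρ ζs hsc G = G := by
    intro G hG
    exact IsRho.unique D (hρ1 ζs hsc G) ⟨fun _ _ => rfl, hG⟩
  obtain ⟨S0, hS0, hdet⟩ := exists_countable_det (fun (F : B) (γ : D.J ⊤) => D.h F γ.1)
    (fun γ => D.hc γ.1) (fun F G hFG => D.eq_of_J fun γ hγ => congrFun hFG ⟨γ, hγ⟩) Λ hΛc
  have hneL : Nonempty L := ⟨⊤⟩
  choose! g hg1 hg2 using fun (γ : Γ) (hγ : γ ∈ D.J ζs) => D.mem_J_of_cl hsc hγ
  let S : Set L := g '' ((Subtype.val '' S0) ∩ D.J ζs)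
  have hS : S.Countable := ((hS0.image _).mono inter_subset_left).image g
  obtain ⟨η, hη, hηb⟩ := hs3 S hS (by rintro _ ⟨γ, hγ, rfl⟩; exact hg1 γ hγ.2)
  obtain ⟨ξ0, hξc, hξ1, hξ2⟩ := hsl η hη
  have hξc : D.Cl ξ0 := hξc
  have hQ2a : ∀ F G : B, (∀ γ ∈ D.J ξ0, D.h F γ = D.h G γ) → Λ F = Λ G := by
    intro F G hFG
    have e1 : Λ (ρ ζs hsc F) = Λ (ρ ζs hsc G) := by
      refine hdet _ _ fun γ hγ => ?_
      by_cases hγζ : γ.1 ∈ D.J ζs
      · have h1 : γ.1 ∈ D.J ξ0 := by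
          have : g γ.1 < η := hηb _ ⟨γ.1, ⟨⟨γ, hγ, rfl⟩, hγζ⟩, rfl⟩
          exact D.J_mono (this.trans hξ1).le (hg2 γ.1 hγζ)
        change D.h (ρ ζs hsc F) γ.1 = D.h (ρ ζs hsc G) γ.1
        rw [(hρ1 ζs hsc F).1 γ.1 hγζ, (hρ1 ζs hsc G).1 γ.1 hγζ, hFG γ.1 h1]
      · change D.h (ρ ζs hsc F) γ.1 = D.h (ρ ζs hsc G) γ.1
        rw [(hρ1 ζs hsc F).2 γ.1 γ.2 hγζ, (hρ1 ζs hsc G).2 γ.1 γ.2 hγζ]
    have e2 : ∀ F, Λ (ρ ζs hsc F) = Λ F := by
      intro F
      change D.Φ (ρ ζs hsc (ρ ζs hsc F)) ζs = D.Φ (ρ ζs hsc F) ζs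
      rw [hself (ρ ζs hsc F) (hρ1 ζs hsc F).2]
    rw [← e2 F, ← e2 G, e1]
  have hQ2b : ∀ ζ (hζ : D.Cl ζ), ξ0 ≤ ζ → ζ ≤ ζs → ∀ F, D.Φ (ρ ζ hζ F) ζ = Λ F := by
    intro ζ hζ h1 h2 F
    have e1 : Λ (ρ ζ hζ F) = Λ F :=
      hQ2a _ _ fun γ hγ => (hρ1 ζ hζ F).1 γ (D.J_mono h1 hγ)
    have e2 : ρ ζs hsc (ρ ζ hζ F) = ρ ζ hζ F :=
      hself _ fun γ hγ hγζ => (hρ1 ζ hζ F).2 γ hγ fun h => hγζ (D.J_mono h2 h)
    have e3 : Λ (ρ ζ hζ F) = D.Φ (ρ ζ hζ F) ζs := by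
      change D.Φ (ρ ζs hsc (ρ ζ hζ F)) ζs = _
      rw [e2]
    rw [← e1, e3]
    exact hρ2 ζ hζ F ζ ζs le_rfl hζ.lt h2 hsc.lt
  have hQ3 : ∀ F G : B, (∀ α, α < ξ0 ∨ α = ⊤ → D.Φ F α = D.Φ G α) → Λ F = Λ G := by
    intro F G hFG
    refine hQ2a F G fun γ hγ => ?_
    obtain ⟨η1, k1, k2⟩ := D.mem_J_of_cl hξc hγ
    obtain ⟨η2, k3, k4, k5⟩ := hξc.closed η1 k1
    exact D.Gsd γ F G fun α hα => hFG α ((k5.supp γ k2 α hα).imp_left fun h => h.trans k4)
  -- a sequence of good points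
  choose! nx hnx1 hnx2 hnx3 using hs4
  let z : ℕ → L := fun k => Nat.rec (nx ξ0) (fun _ x => nx x) k
  have hz0 : z 0 = nx ξ0 := rfl
  have hzs : ∀ k, z (k + 1) = nx (z k) := fun k => rfl
  have hzt : ∀ k, z k < ζs := by
    intro k
    induction k with
    | zero => rw [hz0]; exact hnx3 _ hξ2
    | succ k ih => rw [hzs]; exact hnx3 _ ih
  have hzC : ∀ k, z k ∈ C1 := by
    intro k
    cases k with
    | zero => rw [hz0]; exact hnx1 _ hξ2
    | succ k => rw [hzs]; exact hnx1 _ (hzt k)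
  have hzlt : ∀ k, z k < z (k + 1) := by
    intro k
    rw [hzs]; exact hnx2 _ (hzt k)
  have hξz : ∀ k, ξ0 < z k := by
    intro k
    induction k with
    | zero => rw [hz0]; exact hnx2 _ hξ2
    | succ k ih => exact ih.trans (hzlt k)
  -- the step functions
  have hξζ : ξ0 < ζs := hξ2
  obtain ⟨Fp, hFp⟩ := hstep ξ0 ζs hξζ hs2 c (abs_of_pos hc)
  obtain ⟨Fm, hFm⟩ := hstep ξ0 ζs hξζ hs2 (-c) (by rw [abs_neg, abs_of_pos hc])
  have hpm : Λ Fp = Λ Fm := by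
    refine hQ3 _ _ fun α hα => ?_
    rw [hFp, hFm]
    rcases hα with hα | rfl
    · rw [if_neg (fun h => absurd h.1 (not_lt.2 hα.le)),
        if_neg (fun h => absurd h.1 (not_lt.2 hα.le))]
    · rw [if_neg (fun h => absurd h.2 (not_le.2 hs2)), if_neg (fun h => absurd h.2 (not_le.2 hs2))]
  obtain ⟨s, F0, hs, hF0, hF0v⟩ : ∃ (s : ℝ) (F0 : B), c ≤ |s - Λ Fp| ∧ Λ F0 = Λ Fp ∧
      ∀ k, D.Φ F0 (z k) = s := by
    rcases le_or_gt (Λ Fp) 0 with h | h
    · refine ⟨c, Fp, ?_, rfl, fun k => ?_⟩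
      · rw [abs_of_nonneg (by linarith)]; linarith
      · rw [hFp, if_pos ⟨hξz k, (hzt k).le⟩]
    · refine ⟨-c, Fm, ?_, hpm.symm, fun k => ?_⟩
      · rw [abs_of_nonpos (by linarith)]; linarith
      · rw [hFm, if_pos ⟨hξz k, (hzt k).le⟩]
  obtain ⟨N, hN⟩ := exists_nat_gt (D.K / (c / 2) ^ 2)
  let O : Set B := {F | |Λ F - Λ Fp| < c / 4} ∩ ⋂ i ∈ Finset.range N, {F | |D.Φ F (z i) - s| < c / 4}
  have hO : IsOpen O := by
    refine IsOpen.inter ?_ ?_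
    · exact isOpen_lt (hΛc.sub continuous_const).abs continuous_const
    · exact isOpen_biInter_finset fun i _ =>
        isOpen_lt ((D.Φc (z i)).sub continuous_const).abs continuous_const
  have hF0O : F0 ∈ O := by
    refine ⟨?_, ?_⟩
    · change |Λ F0 - Λ Fp| < c / 4
      rw [hF0, sub_self, abs_zero]; linarith
    · simp only [mem_iInter]
      intro i _
      change |D.Φ F0 (z i) - s| < c / 4
      rw [hF0v, sub_self, abs_zero]; linarith
  obtain ⟨F, hFO, hFA⟩ := hA.inter_open_nonempty O hO ⟨F0, hF0O⟩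
  have hF1 : |Λ F - Λ Fp| < c / 4 := hFO.1
  have hF2 : ∀ i < N, |D.Φ F (z i) - s| < c / 4 := by
    intro i hi
    have := hFO.2
    simp only [mem_iInter] at this
    exact this i (Finset.mem_range.2 hi)
  -- the jumps
  have hleft : ∀ i, ∃ ξ, ξ < z i ∧ ∀ α, ξ ≤ α → α < z i → D.Φ F α = Λ F := by
    intro i
    obtain ⟨hi1, hi2, hi3⟩ := hzC i
    obtain ⟨ξ, h1, h2⟩ := D.left_const hi1 hi2 hi3 (fun δ hδ F => D.exists_rho hδ F) hFA
      (hρ1 (z i) hi1 F)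
    refine ⟨ξ, h1, fun α k1 k2 => ?_⟩
    rw [h2 α k1 k2]
    exact hQ2b (z i) hi1 (hξz i).le (hzt i).le F
  choose xi hxi1 hxi2 using hleft
  let p : ℕ → L := fun k => Nat.casesOn k ξ0 (fun j => z j)
  have hp : ∀ i, p i < z i := by
    intro i
    cases i with
    | zero => exact hξz 0
    | succ i => exact hzlt i
  have hfin := (D.var F).pairs (fun i => max (xi i) (p i)) z
    (fun i => (max_lt (hxi1 i) (hp i)).le) (fun i => le_max_right _ _) N
  have hterm : ∀ i ∈ Finset.range N, (c / 2) ^ 2 ≤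
      (D.Φ F (z i) - D.Φ F (max (xi i) (p i))) ^ 2 := by
    intro i hi
    rw [hxi2 i _ (le_max_left _ _) (max_lt (hxi1 i) (hp i))]
    have h1 := hF2 i (Finset.mem_range.1 hi)
    have h2 : c / 2 ≤ |D.Φ F (z i) - Λ F| := by
      have h3 : |s - Λ Fp| ≤ |s - D.Φ F (z i)| + |D.Φ F (z i) - Λ F| + |Λ F - Λ Fp| := by
        have : s - Λ Fp = (s - D.Φ F (z i)) + (D.Φ F (z i) - Λ F) + (Λ F - Λ Fp) := by ring
        rw [this]
        exact (abs_add_le _ _).trans (add_le_add_left (abs_add_le _ _) _)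
      have h4 : |s - D.Φ F (z i)| < c / 4 := by
        rw [abs_sub_comm]
        exact h1
      linarith
    rw [← sq_abs (D.Φ F (z i) - Λ F)]
    exact pow_le_pow_left₀ (by linarith) h2 2
  have hsum := Finset.sum_le_sum hterm
  rw [Finset.sum_const, Finset.card_range, nsmul_eq_mul] at hsum
  rw [div_lt_iff₀ (by positivity)] at hN
  linarith

end Data

end Pool.Agent.LongJames
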