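import Mathlib

set_option autoImplicit false

/-!
Definitions for the renorming problem for Asplund spaces.
-/

namespace Pool.Agent.LongJames

open Topology

universe u

/-- Every separable subspace has a separable dual. -/
def IsAsplund (X : Type u) [NormedAddCommGroup X] [NormedSpace ℝ X] : Prop :=
  ∀ Y : Submodule ℝ X, TopologicalSpace.SeparableSpace Y →
    TopologicalSpace.SeparableSpace (StrongDual ℝ Y)

/-- `K` is compact and has a dense `Σ`-subset: for some embedding into a power of the real line,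
the points of countable support are dense. -/
def IsValdivia (K : Type u) [TopologicalSpace K] : Prop :=
  CompactSpace K ∧ ∃ (Γ : Type u) (h : K → Γ → ℝ), IsEmbedding h ∧
    Dense {x | {γ | h x γ ≠ 0}.Countable}

/-- The closed unit ball of the dual of `Z` with the weak star topology. -/
abbrev DualBall (Z : Type u) [NormedAddCommGroup Z] [NormedSpace ℝ Z] : Type u :=
  {F : WeakDual ℝ Z // ‖WeakDual.toStrongDual F‖ ≤ 1}

/-- The dual ball of `Z` with the weak star topology is Valdivia compact. -/
def DualBallValdivia (Z : Type u) [NormedAddCommGroup Z] [NormedSpace ℝ Z] : Prop :=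
  IsValdivia (DualBall Z)

/-- The bidual ball of `Y` with the weak star topology is Valdivia compact. -/
def BidualBallValdivia (Y : Type u) [NormedAddCommGroup Y] [NormedSpace ℝ Y] : Prop :=
  DualBallValdivia (StrongDual ℝ Y)

/-- For some renorming of `X` the bidual ball is Valdivia compact. -/
def HasValdiviaRenorming (X : Type u) [NormedAddCommGroup X] [NormedSpace ℝ X] : Prop :=
  ∃ (Y : Type u) (_ : NormedAddCommGroup Y) (_ : NormedSpace ℝ Y),
    Nonempty (X ≃L[ℝ] Y) ∧ BidualBallValdivia Y

/-- `Z` has a countably 1-norming Markushevich basis. -/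
def HasC1NMBasis (Z : Type u) [NormedAddCommGroup Z] [NormedSpace ℝ Z] : Prop :=
  ∃ (Γ : Type u) (z : Γ → Z) (f : Γ → StrongDual ℝ Z),
    (∀ α, f α (z α) = 1) ∧ (∀ α β, α ≠ β → f α (z β) = 0) ∧
    Dense (Submodule.span ℝ (Set.range z) : Set Z) ∧
    (∀ x : Z, (∀ γ, f γ x = 0) → x = 0) ∧
    ∀ x : Z, IsLUB {r : ℝ | ∃ g : StrongDual ℝ Z,
      {γ | g (z γ) ≠ 0}.Countable ∧ ‖g‖ ≤ 1 ∧ r = |g x|} ‖x‖

/-- The dual has a countably 1-norming Markushevich basis. -/
def DualC1NMBasis (Y : Type u) [NormedAddCommGroup Y] [NormedSpace ℝ Y] : Prop :=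
  HasC1NMBasis (StrongDual ℝ Y)

/-- For some renorming of `X` the dual has a countably 1-norming Markushevich basis. -/
def HasMBasisRenorming (X : Type u) [NormedAddCommGroup X] [NormedSpace ℝ X] : Prop :=
  ∃ (Y : Type u) (_ : NormedAddCommGroup Y) (_ : NormedSpace ℝ Y),
    Nonempty (X ≃L[ℝ] Y) ∧ DualC1NMBasis Y

end Pool.Agent.LongJames
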