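import Pool.Agent.LongJames.James

set_option autoImplicit false

/-!
The evaluation functionals span a dense subspace of the dual, and the space is Asplund.
-/

namespace Pool.Agent.LongJames

open Set Topology
open scoped lp ENNReal

universe u

variable {L : Type u} [LinearOrder L] [OrderBot L]

/-- The evaluation functionals on the James space. -/
noncomputable def evJ (γ : L) : StrongDual ℝ (JS L) := (ev γ).comp (JS L).subtypeL

/-- The restriction of functionals. -/
noncomputable def res (ψ : StrongDual ℝ (ES L)) : StrongDual ℝ (JS L) := ψ.comp (JS L).subtypeL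

theorem res_apply (ψ : StrongDual ℝ (ES L)) (x : JS L) : res ψ x = ψ x := rfl

theorem evJ_apply (γ : L) (x : JS L) : evJ γ x = ev γ x := rfl

variable (L)

/-- The closed span of the evaluations. -/
noncomputable def DD : Submodule ℝ (StrongDual ℝ (JS L)) :=
  (Submodule.span ℝ (range (evJ (L := L)))).topologicalClosure

variable {L}

theorem evJ_mem (γ : L) : evJ γ ∈ DD L :=
  Submodule.le_topologicalClosure _ (Submodule.subset_span ⟨γ, rfl⟩)

/-- The block operator. -/
noncomputable def Tb (α β : L) : ES L →L[ℝ] ES L :=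
  Ct β - Ct α - (ev β - ev α).smulRight (St α)

theorem Tb_apply (α β : L) (y : ES L) :
    Tb α β y = Ct β y - Ct α y - (ev β y - ev α y) • St α := rfl

theorem ev_sub_le {α β : L} (h : α ≤ β) {y : ES L} (hy : y ∈ JS L) :
    |ev β y - ev α y| ≤ ‖y‖ := by
  have h1 := (rep_JS hy).varLe (fun k => if k = 0 then α else β) (by
    refine monotone_nat_of_le_succ fun k => ?_
    by_cases hk : k = 0
    · simp [hk, h]
    · simp [hk]) 1
  simp only [Finset.range_one, Finset.sum_singleton] at h1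
  rw [if_neg (by norm_num)] at h1
  simp only [if_true] at h1
  exact abs_le_of_sq_le_sq h1 (norm_nonneg _)

theorem exists_block (ψ : StrongDual ℝ (ES L)) {β : L}
    (hβ : ∀ α, α < β → ∃ γ, α < γ ∧ γ < β) {ε : ℝ} (hε : 0 < ε)
    (hd : ∀ χ ∈ DD L, ε ≤ ‖res (ψ.comp (Ct β)) - χ‖)
    (ih : ∀ α, α < β → res (ψ.comp (Ct α)) ∈ DD L) {α : L} (hα : α < β) :
    ∃ α', α < α' ∧ α' < β ∧ ∃ (G : ES L) (g : L → ℝ), Rep G g ∧
      (∀ γ, γ ≤ α ∨ α' ≤ γ → g γ = 0) ∧ ‖G‖ ≤ 3 ∧ ε / 2 < ψ G := by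
  have hmem : res (ψ.comp (Ct α)) + ψ (St α) • (evJ β - evJ α) ∈ DD L :=
    (DD L).add_mem (ih α hα) ((DD L).smul_mem _ ((DD L).sub_mem (evJ_mem β) (evJ_mem α)))
  have h1 := hd _ hmem
  have h2 : res (ψ.comp (Ct β)) - (res (ψ.comp (Ct α)) + ψ (St α) • (evJ β - evJ α)) =
      res (ψ.comp (Tb α β)) := by
    ext x
    change ψ (Ct β x) - (ψ (Ct α x) + ψ (St α) * (ev β x - ev α x)) = ψ (Tb α β x)
    rw [Tb_apply, map_sub, map_sub, map_smul, smul_eq_mul]
    ring
  rw [h2] at h1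
  obtain ⟨x, hx1, hx2⟩ := ContinuousLinearMap.exists_lt_apply_of_lt_opNorm
    (res (ψ.comp (Tb α β))) (r := ε / 2) (by linarith)
  have hopen : IsOpen {y : ES L | ‖y‖ < 1 ∧ ε / 2 < ‖ψ (Tb α β y)‖} := by
    refine IsOpen.inter ?_ ?_
    · exact isOpen_lt continuous_norm continuous_const
    · exact isOpen_lt continuous_const ((ψ.comp (Tb α β)).continuous.norm)
  have hxc : (x : ES L) ∈ closure (SpanSt L : Set (ES L)) := x.2
  obtain ⟨y, ⟨hy1, hy2⟩, hy3⟩ := mem_closure_iff.1 hxc _ hopen ⟨hx1, hx2⟩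
  obtain ⟨y, hy1, hy2, hy3⟩ : ∃ y : ES L, ‖y‖ < 1 ∧ ε / 2 < ψ (Tb α β y) ∧ y ∈ SpanSt L := by
    rw [Real.norm_eq_abs, lt_abs] at hy2
    rcases hy2 with h | h
    · exact ⟨y, hy1, h, hy3⟩
    · refine ⟨-y, by rwa [norm_neg], ?_, (SpanSt L).neg_mem hy3⟩
      rwa [map_neg, map_neg]
  have hβ0 : ⊥ < β := lt_of_le_of_lt bot_le hα
  obtain ⟨a, ha1, ha2⟩ := span_const hy3 hβ hβ0
  obtain ⟨α', h3, h4⟩ := hβ (max α a) (max_lt hα ha1)
  have hyJ := span_le hy3
  refine ⟨α', (le_max_left _ _).trans_lt h3, h4, Tb α β y,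
    fun γ => ev (min γ β) y - ev (min γ α) y - (ev β y - ev α y) * stp α γ, ?_, ?_, ?_, hy2⟩
  · rw [Tb_apply]
    exact (((rep_JS hyJ).cut β).sub ((rep_JS hyJ).cut α)).sub ((rep_St α).smul _)
  · rintro γ (h | h)
    · have h5 : stp α γ = 0 := if_neg (not_lt.2 h)
      simp only
      rw [h5, min_eq_left (h.trans hα.le), min_eq_left h]
      ring
    · have h6 : α < γ := ((le_max_left _ _).trans_lt h3).trans_le h
      have h5 : stp α γ = 1 := if_pos h6
      have h7 : ev (min γ β) y = ev β y := by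
        refine ha2 _ (le_min (((le_max_right _ _).trans h3.le).trans h) ha1.le) (min_le_right _ _)
      simp only
      rw [h5, h7, min_eq_right h6.le]
      ring
  · rw [Tb_apply]
    have h5 := norm_Ct_apply_le β y
    have h6 := norm_Ct_apply_le α y
    have h7 : ‖(ev β y - ev α y) • St α‖ ≤ ‖y‖ := by
      rw [norm_smul, Real.norm_eq_abs]
      have h8 := ev_sub_le hα.le hyJ
      have h9 := norm_St_le α
      have h10 := norm_nonneg (St α)
      have h11 := abs_nonneg (ev β y - ev α y)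
      nlinarith
    have h8 := norm_sub_le (Ct β y - Ct α y) ((ev β y - ev α y) • St α)
    have h9 := norm_sub_le (Ct β y) (Ct α y)
    linarith

theorem no_blocks (ψ : StrongDual ℝ (ES L)) {β : L} (hβ0 : ⊥ < β) {ε : ℝ} (hε : 0 < ε)
    (hb : ∀ α : L, α < β → ∃ α', α < α' ∧ α' < β ∧ ∃ (G : ES L) (g : L → ℝ), Rep G g ∧
      (∀ γ, γ ≤ α ∨ α' ≤ γ → g γ = 0) ∧ ‖G‖ ≤ 3 ∧ ε < ψ G) : False := by
  choose! nx hx1 hx2 G g hG hg hGn hGψ using hb
  let e : ℕ → L := fun k => Nat.rec ⊥ (fun _ x => nx x) k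
  have hes : ∀ k, e (k + 1) = nx (e k) := fun k => rfl
  have het : ∀ k, e k < β := by
    intro k
    induction k with
    | zero => exact hβ0
    | succ k ih => rw [hes]; exact hx2 _ ih
  have hlt : ∀ k, e k < e (k + 1) := by
    intro k
    rw [hes]; exact hx1 _ (het k)
  have hmono : StrictMono e := strictMono_nat_of_lt_succ hlt
  have hsupp : ∀ k γ, γ ≤ e k ∨ e (k + 1) ≤ γ → g (e k) γ = 0 := by
    intro k γ h
    rw [hes] at h
    exact hg _ (het k) γ h
  have hdisj : ∀ γ i j, i < j → g (e i) γ = 0 ∨ g (e j) γ = 0 := by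
    intro γ i j hij
    rcases le_or_gt (e (i + 1)) γ with h | h
    · exact Or.inl (hsupp i γ (Or.inr h))
    · exact Or.inr (hsupp j γ (Or.inl (h.le.trans (hmono.monotone hij))))
  have hvar : ∀ n : ℕ, VarLe (∑ k ∈ Finset.range n, g (e k)) ((Real.sqrt (18 * n)) ^ 2) := by
    intro n a ha m
    rw [Real.sq_sqrt (by positivity)]
    calc ∑ i ∈ Finset.range m, ((∑ k ∈ Finset.range n, g (e k)) (a (i + 1)) -
            (∑ k ∈ Finset.range n, g (e k)) (a i)) ^ 2
        ≤ ∑ i ∈ Finset.range m, 2 * ∑ k ∈ Finset.range n,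
            (g (e k) (a (i + 1)) - g (e k) (a i)) ^ 2 := by
          refine Finset.sum_le_sum fun i _ => ?_
          rw [Finset.sum_apply, Finset.sum_apply]
          exact disj_sub (fun k => g (e k) (a i)) (fun k => g (e k) (a (i + 1)))
            (hdisj (a i)) (hdisj (a (i + 1))) n
      _ = 2 * ∑ k ∈ Finset.range n, ∑ i ∈ Finset.range m,
            (g (e k) (a (i + 1)) - g (e k) (a i)) ^ 2 := by
          rw [← Finset.mul_sum, Finset.sum_comm]
      _ ≤ 2 * ∑ _k ∈ Finset.range n, (9 : ℝ) := by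
          refine mul_le_mul_of_nonneg_left (Finset.sum_le_sum fun k _ => ?_) (by norm_num)
          refine ((hG _ (het k)).varLe a ha m).trans ?_
          have h1 := hGn _ (het k)
          have h2 := norm_nonneg (G (e k))
          nlinarith
      _ = 18 * n := by
          rw [Finset.sum_const, Finset.card_range, nsmul_eq_mul]
          ring
  have hnorm : ∀ n : ℕ, ‖∑ k ∈ Finset.range n, G (e k)‖ ≤ Real.sqrt (18 * n) := by
    intro n
    have hrep : ∀ k, Rep (G (e k)) (g (e k)) := fun k => hG _ (het k)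
    exact (Rep.sum (G := fun k => G (e k)) (g := fun k => g (e k)) hrep n).norm_le
      (Real.sqrt_nonneg _) (hvar n)
  have hlow : ∀ n : ℕ, (n : ℝ) * ε ≤ ψ (∑ k ∈ Finset.range n, G (e k)) := by
    intro n
    rw [map_sum]
    have : ∑ _k ∈ Finset.range n, ε ≤ ∑ k ∈ Finset.range n, ψ (G (e k)) :=
      Finset.sum_le_sum fun k _ => (hGψ _ (het k)).le
    simpa using this
  obtain ⟨n, hn⟩ := exists_nat_gt (18 * ‖ψ‖ ^ 2 / ε ^ 2)
  have h1 : (n : ℝ) * ε ≤ ‖ψ‖ * Real.sqrt (18 * n) := by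
    refine (hlow n).trans ((le_abs_self _).trans ?_)
    rw [← Real.norm_eq_abs]
    exact (ψ.le_opNorm _).trans (mul_le_mul_of_nonneg_left (hnorm n) (norm_nonneg _))
  have hn0 : 0 < (n : ℝ) := lt_of_le_of_lt (by positivity) hn
  have h2 : ((n : ℝ) * ε) ^ 2 ≤ (‖ψ‖ * Real.sqrt (18 * n)) ^ 2 :=
    pow_le_pow_left₀ (by positivity) h1 2
  rw [mul_pow, mul_pow, Real.sq_sqrt (by positivity)] at h2
  rw [div_lt_iff₀ (by positivity)] at hn
  have h3 : (n : ℝ) * ((n : ℝ) * ε ^ 2) ≤ (n : ℝ) * (18 * ‖ψ‖ ^ 2) := by nlinarith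
  have h4 := le_of_mul_le_mul_left h3 hn0
  linarith

theorem exists_eps {X : Type*} [NormedAddCommGroup X] [NormedSpace ℝ X]
    {S : Set (StrongDual ℝ X)} {x : StrongDual ℝ X}
    (hx : x ∉ (Submodule.span ℝ S).topologicalClosure) :
    ∃ ε, 0 < ε ∧ ∀ χ ∈ (Submodule.span ℝ S).topologicalClosure, ε ≤ ‖x - χ‖ := by
  have hC : IsClosed ((Submodule.span ℝ S).topologicalClosure : Set (StrongDual ℝ X)) :=
    Submodule.isClosed_topologicalClosure _
  obtain ⟨ε, hε, hball⟩ := Metric.isOpen_iff.1 hC.isOpen_compl x hx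
  refine ⟨ε, hε, fun χ hχ => ?_⟩
  by_contra hlt
  push Not at hlt
  have : χ ∈ Metric.ball x ε := by
    rw [Metric.mem_ball, dist_comm, dist_eq_norm]
    exact hlt
  exact hball this hχ

theorem res_cut_mem [WellFoundedLT L] (ψ : StrongDual ℝ (ES L)) (β : L) :
    res (ψ.comp (Ct β)) ∈ DD L := by
  induction β using WellFoundedLT.induction with
  | ind β ih =>
    rcases eq_or_lt_of_le (bot_le : ⊥ ≤ β) with h0 | h0
    · have : res (ψ.comp (Ct β)) = 0 := by
        ext x
        change ψ (Ct β x) = 0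
        rw [← h0, Ct_bot x.2, map_zero]
      rw [this]
      exact (DD L).zero_mem
    by_cases hsucc : ∃ α, α < β ∧ ∀ γ, γ < β → γ ≤ α
    · obtain ⟨α, hα, hcov⟩ := hsucc
      have : res (ψ.comp (Ct β)) = res (ψ.comp (Ct α)) + ψ (St α) • (evJ β - evJ α) := by
        ext x
        change ψ (Ct β x) = ψ (Ct α x) + ψ (St α) * (ev β x - ev α x)
        rw [Ct_succ hα hcov x.2, map_add, map_smul, smul_eq_mul]
        ring
      rw [this]
      exact (DD L).add_mem (ih α hα)
        ((DD L).smul_mem _ ((DD L).sub_mem (evJ_mem β) (evJ_mem α)))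
    · push Not at hsucc
      by_contra hcon
      obtain ⟨ε, hε, hd⟩ := exists_eps (X := JS L) (S := range (evJ (L := L))) hcon
      have hlim : ∀ α, α < β → ∃ γ, α < γ ∧ γ < β := by
        intro α hα
        obtain ⟨γ, h1, h2⟩ := hsucc α hα
        exact ⟨γ, h2, h1⟩
      exact no_blocks ψ h0 (half_pos hε) fun α hα => exists_block ψ hlim hε hd ih hα

theorem dense_ev [OrderTop L] [WellFoundedLT L] (φ : StrongDual ℝ (JS L)) : φ ∈ DD L := by
  obtain ⟨ψ, hψ, _⟩ := exists_extension_norm_eq (JS L) φ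
  have h := res_cut_mem ψ (⊤ : L)
  have : res (ψ.comp (Ct ⊤)) = φ := by
    ext x
    change ψ (Ct ⊤ x) = φ x
    rw [Ct_top, hψ]
  rwa [this] at h

end Pool.Agent.LongJames
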