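import Pool.Agent.LongJames.JLike
import Pool.Agent.LongJames.Defs

set_option autoImplicit false

/-!
The bidual ball of a James type space over a long well order is never Valdivia.
-/

namespace Pool.Agent.LongJames

open Set Topology

universe u v w

variable {L : Type u} [LinearOrder L]
variable {X : Type v} [NormedAddCommGroup X] [NormedSpace ℝ X]

theorem JLike.norm_comb (H : JLike L X) (a : ℕ → L) (ha : Monotone a) (d : ℕ → ℝ) (n : ℕ) :
    ‖∑ i ∈ Finset.range n, d i • (H.e (a (i + 1)) - H.e (a i))‖ ≤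
      Real.sqrt (∑ i ∈ Finset.range n, d i ^ 2) := by
  refine ContinuousLinearMap.opNorm_le_bound _ (Real.sqrt_nonneg _) fun x => ?_
  have e1 : (∑ i ∈ Finset.range n, d i • (H.e (a (i + 1)) - H.e (a i))) x =
      ∑ i ∈ Finset.range n, d i * (H.e (a (i + 1)) x - H.e (a i) x) := by
    rw [ContinuousLinearMap.sum_apply]
    rfl
  rw [e1, Real.norm_eq_abs]
  refine abs_le_of_sq_le_sq ?_ (by positivity)
  rw [mul_pow, Real.sq_sqrt (Finset.sum_nonneg fun i _ => sq_nonneg _)]
  exact (Finset.sum_mul_sq_le_sq_mul_sq _ _ _).trans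
    (mul_le_mul_of_nonneg_left (H.var x a ha n) (Finset.sum_nonneg fun i _ => sq_nonneg _))

theorem JLike.var_bidual (H : JLike L X) (F : StrongDual ℝ (StrongDual ℝ X)) :
    VarLe (fun α => F (H.e α)) (‖F‖ ^ 2) := by
  intro a ha n
  set d : ℕ → ℝ := fun i => F (H.e (a (i + 1))) - F (H.e (a i)) with hd
  set s : ℝ := ∑ i ∈ Finset.range n, d i ^ 2 with hs
  have h0 : 0 ≤ s := Finset.sum_nonneg fun i _ => sq_nonneg _
  have h5 : 0 ≤ ‖F‖ := norm_nonneg F
  have h1 : s = F (∑ i ∈ Finset.range n, d i • (H.e (a (i + 1)) - H.e (a i))) := by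
    rw [map_sum, hs]
    refine Finset.sum_congr rfl fun i _ => ?_
    rw [map_smul, map_sub, smul_eq_mul, sq]
  have h2 : s ≤ ‖F‖ * Real.sqrt s := by
    calc s ≤ |F (∑ i ∈ Finset.range n, d i • (H.e (a (i + 1)) - H.e (a i)))| := by
          rw [h1]; exact le_abs_self _
      _ ≤ ‖F‖ * ‖∑ i ∈ Finset.range n, d i • (H.e (a (i + 1)) - H.e (a i))‖ := by
          rw [← Real.norm_eq_abs]; exact F.le_opNorm _
      _ ≤ ‖F‖ * Real.sqrt s :=
          mul_le_mul_of_nonneg_left (H.norm_comb a ha d n) h5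
  have h3 : Real.sqrt s * Real.sqrt s = s := Real.mul_self_sqrt h0
  have h4 := Real.sqrt_nonneg s
  change s ≤ ‖F‖ ^ 2
  rcases le_or_gt (Real.sqrt s) ‖F‖ with h | h
  · nlinarith
  · nlinarith

theorem JLike.not_valdivia [OrderTop L] [WellFoundedLT L] (hL : Long L) (H : JLike L X)
    {Y : Type w} [NormedAddCommGroup Y] [NormedSpace ℝ Y] (T : X ≃L[ℝ] Y) :
    ¬ IsValdivia (DualBall (StrongDual ℝ Y)) := by
  rintro ⟨hcomp, Γ, h, hemb, hdense⟩
  let A : StrongDual ℝ X →L[ℝ] StrongDual ℝ Y :=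
    ContinuousLinearMap.precomp ℝ (T.symm : Y →L[ℝ] X)
  have hA : ∀ φ y, A φ y = φ (T.symm y) := fun φ y => rfl
  let P : DualBall (StrongDual ℝ Y) → StrongDual ℝ (StrongDual ℝ X) := fun F =>
    (WeakDual.toStrongDual F.1).comp A
  let Φ : DualBall (StrongDual ℝ Y) → L → ℝ := fun F α => F.1 (A (H.e α))
  have hΦP : ∀ F α, Φ F α = P F (H.e α) := fun F α => rfl
  have Φc : ∀ α, Continuous fun F => Φ F α := fun α =>
    (WeakDual.eval_continuous (A (H.e α))).comp continuous_subtype_val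
  have hc : ∀ γ, Continuous fun F => h F γ := fun γ =>
    (continuous_apply γ).comp hemb.continuous
  have Φi : Function.Injective Φ := by
    intro F G hFG
    have h1 : Set.EqOn (P F) (P G) (closure (Submodule.span ℝ (range H.e) : Set _)) := by
      refine Set.EqOn.closure ?_ (P F).continuous (P G).continuous
      intro y hy
      have : Set.EqOn (P F).toLinearMap (P G).toLinearMap (range H.e) := by
        rintro _ ⟨α, rfl⟩
        exact congrFun hFG α
      exact LinearMap.eqOn_span this hy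
    apply Subtype.ext
    apply DFunLike.ext
    intro ψ
    have h2 : A (ψ.comp (T : X →L[ℝ] Y)) = ψ := by
      ext y
      rw [hA]
      change ψ (T (T.symm y)) = ψ y
      rw [T.apply_symm_apply]
    have h3 := h1 (H.dense_e (ψ.comp (T : X →L[ℝ] Y)))
    change F.1 (A _) = G.1 (A _) at h3
    rwa [h2] at h3
  have hi : Function.Injective h := hemb.injective
  choose Gam hGamc hGamd using fun α => exists_countable_det h hc hi (fun F => Φ F α) (Φc α)
  choose Gs hGsc hGsd using fun γ => exists_countable_det Φ Φc Φi (fun F => h F γ) (hc γ)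
  let D : Data (DualBall (StrongDual ℝ Y)) L Γ :=
    { Φ := Φ
      h := h
      Φc := Φc
      hc := hc
      Φi := Φi
      hi := hi
      K := ‖A‖ ^ 2
      var := by
        intro F a ha n
        refine (H.var_bidual (P F) a ha n).trans ?_
        have h5 : 0 ≤ ‖A‖ := norm_nonneg A
        have h6 : 0 ≤ ‖P F‖ := norm_nonneg (P F)
        have h7 : ‖P F‖ ≤ ‖WeakDual.toStrongDual F.1‖ * ‖A‖ :=
          ContinuousLinearMap.opNorm_comp_le _ _
        have h8 := F.2
        refine pow_le_pow_left₀ h6 (h7.trans ?_) 2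
        nlinarith
      Gam := Gam
      Gamc := hGamc
      Gamd := hGamd
      Gs := Gs
      Gsc := hGsc
      Gsd := hGsd }
  have hDA : Dense D.A := by
    refine hdense.mono ?_
    intro F hF
    have hF' : {γ | h F γ ≠ 0}.Countable := hF
    exact hF'.mono fun γ hγ => hγ.2
  have hT : 0 ≤ ‖(T : X →L[ℝ] Y)‖ := norm_nonneg _
  let c : ℝ := 1 / (2 * ‖(T : X →L[ℝ] Y)‖ + 1)
  have hc0 : 0 < c := by positivity
  refine D.no_valdivia hL hDA hc0 ?_
  intro α β hαβ _ s hs
  let x : X := s • (H.s α - H.s β)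
  have hx : ‖T x‖ ≤ 1 := by
    have h1 : ‖x‖ ≤ c * 2 := by
      have h2 : ‖H.s α - H.s β‖ ≤ 2 := by
        have h3 := norm_sub_le (H.s α) (H.s β)
        have h4 := H.norm_s α
        have h5 := H.norm_s β
        linarith
      rw [show x = s • (H.s α - H.s β) from rfl, norm_smul, Real.norm_eq_abs, hs]
      exact mul_le_mul_of_nonneg_left h2 hc0.le
    have h2 : ‖T x‖ ≤ ‖(T : X →L[ℝ] Y)‖ * ‖x‖ := (T : X →L[ℝ] Y).le_opNorm x
    have h3 : c * (2 * ‖(T : X →L[ℝ] Y)‖ + 1) = 1 := by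
      have : (2 * ‖(T : X →L[ℝ] Y)‖ + 1) ≠ 0 := by positivity
      exact one_div_mul_cancel this
    nlinarith
  let J := NormedSpace.inclusionInDoubleDual ℝ Y
  have hJ : ‖J (T x)‖ ≤ 1 := (NormedSpace.double_dual_bound ℝ Y (T x)).trans hx
  refine ⟨⟨WeakDual.toStrongDual.symm (J (T x)), hJ⟩, fun γ => ?_⟩
  change (A (H.e γ)) (T x) = _
  rw [hA, T.symm_apply_apply]
  change H.e γ (s • (H.s α - H.s β)) = _
  rw [map_smul, map_sub, H.es, H.es, smul_eq_mul]
  unfold stp
  by_cases h1 : α < γ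
  · by_cases h2 : β < γ
    · rw [if_pos h1, if_pos h2, if_neg (fun h => absurd h.2 (not_le.2 h2))]
      ring
    · rw [if_pos h1, if_neg h2, if_pos ⟨h1, not_lt.1 h2⟩]
      ring
  · rw [if_neg h1, if_neg (fun h => h1 (hαβ.trans h)), if_neg (fun h => h1 h.1)]
    ring

end Pool.Agent.LongJames
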