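import Pool.Agent.LongJames.DualDense

set_option autoImplicit false

/-!
The abstract properties of the James type space and their consequences.
-/

namespace Pool.Agent.LongJames

open Set Topology

universe u v w

/-- The abstract properties of the James type space over `L`. -/
structure JLike (L : Type u) [LinearOrder L] (X : Type v) [NormedAddCommGroup X]
    [NormedSpace ℝ X] where
  /-- the evaluations -/
  e : L → StrongDual ℝ X
  /-- the steps -/
  s : L → X
  es : ∀ α γ, e γ (s α) = stp α γ
  norm_s : ∀ α, ‖s α‖ ≤ 1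
  dense_e : ∀ φ : StrongDual ℝ X, φ ∈ (Submodule.span ℝ (range e)).topologicalClosure
  dense_s : ∀ x : X, x ∈ (Submodule.span ℝ (range s)).topologicalClosure
  var : ∀ x : X, VarLe (fun γ => e γ x) (‖x‖ ^ 2)

/-- The James type space over a well ordered set with top and bottom. -/
noncomputable def jsLike (L : Type u) [LinearOrder L] [OrderBot L] [OrderTop L]
    [WellFoundedLT L] : JLike L (JS L) where
  e := evJ
  s := fun α => ⟨St α, St_mem α⟩
  es := fun α γ => ev_St α γ
  norm_s := fun α => norm_St_le α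
  dense_e := dense_ev
  dense_s := by
    intro x
    have h1 : ((x : JS L) : ES L) ∈ closure (SpanSt L : Set (ES L)) := x.2
    have h2 : IsInducing (Subtype.val : JS L → ES L) := IsInducing.subtypeVal
    rw [← SetLike.mem_coe, Submodule.topologicalClosure_coe, h2.closure_eq_preimage_closure_image]
    refine closure_mono ?_ h1
    intro y hy
    have h3 : y ∈ Submodule.map (JS L).subtype
        (Submodule.span ℝ (range fun α : L => (⟨St α, St_mem α⟩ : JS L))) := by
      rw [Submodule.map_span]
      refine Submodule.span_mono ?_ hy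
      rintro _ ⟨α, rfl⟩
      exact ⟨_, ⟨α, rfl⟩, rfl⟩
    obtain ⟨z, hz, rfl⟩ := h3
    exact ⟨z, hz, rfl⟩
  var := fun x => (rep_JS x.2).varLe

variable {L : Type u} [LinearOrder L]

/-- For a countable set of steps there are only countably many evaluations. -/
theorem countable_ev [OrderTop L] [WellFoundedLT L] (E : Set L) (hE : E.Countable)
    {M : Type w} (r : L → M) (hr : ∀ γ γ', (∀ α ∈ E, stp α γ = stp α γ') → r γ = r γ') :
    (range r).Countable := by
  classical
  have hE' : (insert ⊤ E).Countable := hE.insert ⊤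
  refine (hE'.image r).mono ?_
  rintro _ ⟨γ, rfl⟩
  let S : Set L := {x | x ∈ insert ⊤ E ∧ γ ≤ x}
  have hS : S.Nonempty := ⟨⊤, mem_insert _ _, le_top⟩
  let m := WellFounded.min (wellFounded_lt (α := L)) S hS
  have hm : m ∈ S := WellFounded.min_mem (wellFounded_lt (α := L)) S hS
  refine ⟨m, hm.1, hr m γ fun α hα => ?_⟩
  unfold stp
  by_cases h : α < γ
  · rw [if_pos h, if_pos (h.trans_le hm.2)]
  · rw [if_neg h, if_neg]
    exact WellFounded.not_lt_min (wellFounded_lt (α := L)) S ⟨mem_insert_of_mem _ hα, not_lt.1 h⟩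

variable {X : Type v} [NormedAddCommGroup X] [NormedSpace ℝ X] (H : JLike L X)

/-- Elements of the span are determined by finitely many steps. -/
theorem JLike.span_finite {x : X} (hx : x ∈ Submodule.span ℝ (range H.s)) :
    ∃ F : Set L, F.Countable ∧
      ∀ γ γ', (∀ α ∈ F, stp α γ = stp α γ') → H.e γ x = H.e γ' x := by
  refine Submodule.span_induction (p := fun x _ => ∃ F : Set L, F.Countable ∧
    ∀ γ γ', (∀ α ∈ F, stp α γ = stp α γ') → H.e γ x = H.e γ' x) ?_ ?_ ?_ ?_ hx
  · rintro _ ⟨ξ, rfl⟩
    refine ⟨{ξ}, countable_singleton _, fun γ γ' h => ?_⟩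
    rw [H.es, H.es]
    exact h ξ rfl
  · exact ⟨∅, countable_empty, fun γ γ' _ => by rw [map_zero, map_zero]⟩
  · rintro x y _ _ ⟨F, hF, h1⟩ ⟨F', hF', h2⟩
    refine ⟨F ∪ F', hF.union hF', fun γ γ' h => ?_⟩
    rw [map_add, map_add, h1 γ γ' fun α hα => h α (Or.inl hα),
      h2 γ γ' fun α hα => h α (Or.inr hα)]
  · rintro c x _ ⟨F, hF, h1⟩
    refine ⟨F, hF, fun γ γ' h => ?_⟩
    rw [map_smul, map_smul, h1 γ γ' h]

include H in
theorem JLike.asplund [OrderTop L] [WellFoundedLT L] (Y : Submodule ℝ X)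
    (hY : TopologicalSpace.SeparableSpace Y) :
    TopologicalSpace.SeparableSpace (StrongDual ℝ Y) := by
  classical
  obtain ⟨c, hc⟩ := TopologicalSpace.exists_dense_seq Y
  have key : ∀ n : ℕ, ∀ k : ℕ, ∃ p : X, p ∈ Submodule.span ℝ (range H.s) ∧
      ‖(c n : X) - p‖ < 1 / ((k : ℝ) + 1) := by
    intro n k
    have h1 : (c n : X) ∈ closure (Submodule.span ℝ (range H.s) : Set X) := H.dense_s _
    obtain ⟨p, hp, hd⟩ := Metric.mem_closure_iff.1 h1 (1 / ((k : ℝ) + 1)) (by positivity)
    exact ⟨p, hp, by rwa [← dist_eq_norm]⟩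
  choose p hp hpd using key
  choose F hF hFe using fun n k => H.span_finite (hp n k)
  let E : Set L := ⋃ n, ⋃ k, F n k
  have hE : E.Countable := countable_iUnion fun n => countable_iUnion fun k => hF n k
  let r : L → StrongDual ℝ Y := fun γ => (H.e γ).comp Y.subtypeL
  have hr : ∀ γ γ', (∀ α ∈ E, stp α γ = stp α γ') → r γ = r γ' := by
    intro γ γ' h
    have h1 : ∀ n k, H.e γ (p n k) = H.e γ' (p n k) := fun n k =>
      hFe n k γ γ' fun α hα => h α (mem_iUnion.2 ⟨n, mem_iUnion.2 ⟨k, hα⟩⟩)
    have h2 : ∀ n, r γ (c n) = r γ' (c n) := by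
      intro n
      have hcl : IsClosed {x : X | H.e γ x = H.e γ' x} :=
        isClosed_eq (H.e γ).continuous (H.e γ').continuous
      have h3 : (c n : X) ∈ closure {x : X | H.e γ x = H.e γ' x} := by
        refine Metric.mem_closure_iff.2 fun ε hε => ?_
        obtain ⟨k, hk⟩ := exists_nat_one_div_lt hε
        refine ⟨p n k, h1 n k, ?_⟩
        rw [dist_eq_norm]
        exact (hpd n k).trans hk
      rw [hcl.closure_eq] at h3
      exact h3
    have h3 : (fun y => r γ y) = fun y => r γ' y :=
      (r γ).continuous.ext_on hc (r γ').continuous (by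
        rintro _ ⟨n, rfl⟩
        exact h2 n)
    ext y
    exact congrFun h3 y
  have hcount : (range r).Countable := countable_ev E hE r hr
  let R : StrongDual ℝ X →L[ℝ] StrongDual ℝ Y := ContinuousLinearMap.precomp ℝ Y.subtypeL
  have hR : ∀ φ, R φ = φ.comp Y.subtypeL := fun φ => rfl
  have hsub : (univ : Set (StrongDual ℝ Y)) ⊆
      closure (Submodule.span ℝ (range r) : Set (StrongDual ℝ Y)) := by
    intro ψ _
    obtain ⟨φ, hφ, _⟩ := exists_extension_norm_eq Y ψ
    have h1 : R φ = ψ := by
      ext y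
      exact hφ y
    rw [← h1]
    have h2 : φ ∈ closure (Submodule.span ℝ (range H.e) : Set (StrongDual ℝ X)) := H.dense_e φ
    have h3 := image_closure_subset_closure_image R.continuous (mem_image_of_mem R h2)
    refine closure_mono ?_ h3
    rintro _ ⟨χ, hχ, rfl⟩
    have h4 : R χ ∈ Submodule.map R.toLinearMap (Submodule.span ℝ (range H.e)) :=
      ⟨χ, hχ, rfl⟩
    rw [Submodule.map_span] at h4
    refine Submodule.span_mono ?_ h4
    rintro _ ⟨_, ⟨γ, rfl⟩, rfl⟩
    exact ⟨γ, rfl⟩
  rw [← TopologicalSpace.isSeparable_univ_iff]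
  exact (hcount.isSeparable.span (R := ℝ)).closure.mono hsub

end Pool.Agent.LongJames
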