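import Pool.Agent.LongJames.Abstract

set_option autoImplicit false

/-!
The James type space over a well ordered set, as a closed subspace of an `ℓ^∞`-sum of Euclidean
spaces.
-/

namespace Pool.Agent.LongJames

open Set Topology
open scoped lp ENNReal

universe u

section Basic

variable (L : Type u) [LinearOrder L]

/-- Monotone sequences. -/
abbrev Mon : Type u := {a : ℕ → L // Monotone a}

/-- The index set. -/
abbrev Idx : Type u := ℕ × Mon L

/-- The ambient space. -/
abbrev ES : Type u := lp (fun p : Idx L => EuclideanSpace ℝ (Fin p.1)) ∞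

variable {L}

/-- `G` is the family of increments of `g`. -/
def Rep (G : ES L) (g : L → ℝ) : Prop :=
  ∀ (p : Idx L) (i : Fin p.1), G p i = g (p.2.1 (i + 1)) - g (p.2.1 i)

/-- The increments of a function. -/
noncomputable def incr (f : L → ℝ) (p : Idx L) : EuclideanSpace ℝ (Fin p.1) :=
  WithLp.toLp 2 fun i => f (p.2.1 (i + 1)) - f (p.2.1 i)

theorem norm_incr_sq (f : L → ℝ) (p : Idx L) :
    ‖incr f p‖ ^ 2 = ∑ i ∈ Finset.range p.1, (f (p.2.1 (i + 1)) - f (p.2.1 i)) ^ 2 := by
  rw [EuclideanSpace.norm_sq_eq,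
    ← Fin.sum_univ_eq_sum_range (fun i => (f (p.2.1 (i + 1)) - f (p.2.1 i)) ^ 2)]
  refine Finset.sum_congr rfl fun i _ => ?_
  rw [Real.norm_eq_abs, sq_abs]
  rfl

theorem norm_incr_le {f : L → ℝ} {C : ℝ} (hC : 0 ≤ C) (hf : VarLe f (C ^ 2)) (p : Idx L) :
    ‖incr f p‖ ≤ C := by
  refine le_of_sq_le_sq ?_ hC
  rw [norm_incr_sq]
  exact hf p.2.1 p.2.2 p.1

theorem Rep.eq_incr {G : ES L} {g : L → ℝ} (h : Rep G g) (p : Idx L) : G p = incr g p := by
  ext i
  exact h p i

theorem Rep.varLe {G : ES L} {g : L → ℝ} (h : Rep G g) : VarLe g (‖G‖ ^ 2) := by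
  intro a ha n
  have h1 := lp.norm_apply_le_norm ENNReal.top_ne_zero G (n, ⟨a, ha⟩)
  rw [h.eq_incr] at h1
  have h2 := norm_incr_sq g (n, ⟨a, ha⟩)
  simp only at h2
  rw [← h2]
  exact pow_le_pow_left₀ (norm_nonneg _) h1 2

theorem Rep.norm_le {G : ES L} {g : L → ℝ} (h : Rep G g) {C : ℝ} (hC : 0 ≤ C)
    (hg : VarLe g (C ^ 2)) : ‖G‖ ≤ C := by
  refine lp.norm_le_of_forall_le hC fun p => ?_
  rw [h.eq_incr]
  exact norm_incr_le hC hg p

theorem Rep.zero : Rep (0 : ES L) 0 := by
  intro p i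
  simp

theorem Rep.add {G G' : ES L} {g g' : L → ℝ} (h : Rep G g) (h' : Rep G' g') :
    Rep (G + G') (g + g') := by
  intro p i
  have h1 := h p i
  have h2 := h' p i
  rw [lp.coeFn_add]
  simp only [Pi.add_apply, PiLp.add_apply]
  rw [h1, h2]
  ring

theorem Rep.smul {G : ES L} {g : L → ℝ} (h : Rep G g) (c : ℝ) : Rep (c • G) (c • g) := by
  intro p i
  have h1 := h p i
  rw [lp.coeFn_smul]
  simp only [Pi.smul_apply, PiLp.smul_apply, smul_eq_mul]
  rw [h1]
  ring

theorem Rep.sub {G G' : ES L} {g g' : L → ℝ} (h : Rep G g) (h' : Rep G' g') :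
    Rep (G - G') (g - g') := by
  have := h.add (h'.smul (-1))
  rw [neg_one_smul, neg_one_smul, ← sub_eq_add_neg, ← sub_eq_add_neg] at this
  exact this

theorem Rep.sum {G : ℕ → ES L} {g : ℕ → L → ℝ} (h : ∀ k, Rep (G k) (g k)) (n : ℕ) :
    Rep (∑ k ∈ Finset.range n, G k) (∑ k ∈ Finset.range n, g k) := by
  induction n with
  | zero => simpa using Rep.zero
  | succ n ih =>
    rw [Finset.sum_range_succ, Finset.sum_range_succ]
    exact ih.add (h n)

/-- The element of the ambient space with given function. -/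
theorem exists_rep {g : L → ℝ} {C : ℝ} (hC : 0 ≤ C) (hg : VarLe g (C ^ 2)) :
    ∃ G : ES L, Rep G g := by
  refine ⟨⟨incr g, memℓp_infty ⟨C, ?_⟩⟩, fun p i => rfl⟩
  rintro _ ⟨p, rfl⟩
  exact norm_incr_le hC hg p

/-- The step functions. -/
noncomputable def stp (α γ : L) : ℝ := if α < γ then 1 else 0

theorem stp_mono (α : L) {γ γ' : L} (h : γ ≤ γ') : stp α γ ≤ stp α γ' := by
  unfold stp
  split_ifs with h1 h2
  · exact le_rfl
  · exact absurd (h1.trans_le h) h2
  · exact zero_le_one
  · exact le_rfl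

theorem stp_nonneg (α γ : L) : 0 ≤ stp α γ := by
  unfold stp
  split_ifs <;> norm_num

theorem stp_le_one (α γ : L) : stp α γ ≤ 1 := by
  unfold stp
  split_ifs <;> norm_num

theorem varLe_stp (α : L) : VarLe (stp α) (1 ^ 2) := by
  intro a ha n
  have h1 : ∀ i, (stp α (a (i + 1)) - stp α (a i)) ^ 2 ≤ stp α (a (i + 1)) - stp α (a i) := by
    intro i
    have h2 := stp_mono α (ha (Nat.le_succ i))
    have h3 := stp_le_one α (a (i + 1))
    have h4 := stp_nonneg α (a i)
    nlinarith
  calc ∑ i ∈ Finset.range n, (stp α (a (i + 1)) - stp α (a i)) ^ 2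
      ≤ ∑ i ∈ Finset.range n, (stp α (a (i + 1)) - stp α (a i)) :=
        Finset.sum_le_sum fun i _ => h1 i
    _ = stp α (a n) - stp α (a 0) := Finset.sum_range_sub (fun i => stp α (a i)) n
    _ ≤ 1 ^ 2 := by
        have h3 := stp_le_one α (a n)
        have h4 := stp_nonneg α (a 0)
        linarith

/-- The step elements. -/
noncomputable def St (α : L) : ES L := Classical.choose (exists_rep zero_le_one (varLe_stp α))

theorem rep_St (α : L) : Rep (St α) (stp α) :=
  Classical.choose_spec (exists_rep zero_le_one (varLe_stp α))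

theorem norm_St_le (α : L) : ‖St α‖ ≤ 1 := (rep_St α).norm_le zero_le_one (varLe_stp α)

/-- Coordinates. -/
noncomputable def coord (p : Idx L) (i : Fin p.1) : StrongDual ℝ (ES L) :=
  LinearMap.mkContinuous
    { toFun := fun F => F p i
      map_add' := fun F G => by rw [lp.coeFn_add]; rfl
      map_smul' := fun c F => by rw [lp.coeFn_smul]; rfl } 1 (fun F => by
        rw [one_mul]
        exact (PiLp.norm_apply_le (F p) i).trans
          (lp.norm_apply_le_norm ENNReal.top_ne_zero F p))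

theorem coord_apply (p : Idx L) (i : Fin p.1) (F : ES L) : coord p i F = F p i := rfl

/-- Cutting a sequence at `β`. -/
def cut (β : L) (a : Mon L) : Mon L :=
  ⟨fun k => min (a.1 k) β, fun _ _ h => min_le_min_right β (a.2 h)⟩

theorem norm_cut_le (β : L) (F : ES L) (p : Idx L) :
    ‖(F (p.1, cut β p.2) : EuclideanSpace ℝ (Fin p.1))‖ ≤ ‖F‖ :=
  lp.norm_apply_le_norm ENNReal.top_ne_zero F (p.1, cut β p.2)

/-- The cut operator. -/
noncomputable def Ct (β : L) : ES L →L[ℝ] ES L :=
  LinearMap.mkContinuous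
    { toFun := fun F => ⟨fun p => F (p.1, cut β p.2), memℓp_infty ⟨‖F‖, by
        rintro _ ⟨p, rfl⟩
        exact norm_cut_le β F p⟩⟩
      map_add' := fun F G => by
        ext p i
        rfl
      map_smul' := fun c F => by
        ext p i
        rfl } 1 (fun F => by
        rw [one_mul]
        exact lp.norm_le_of_forall_le (norm_nonneg _) fun p => norm_cut_le β F p)

theorem norm_Ct_apply_le (β : L) (F : ES L) : ‖Ct β F‖ ≤ ‖F‖ :=
  lp.norm_le_of_forall_le (norm_nonneg _) fun p => norm_cut_le β F p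

theorem Rep.cut {G : ES L} {g : L → ℝ} (h : Rep G g) (β : L) :
    Rep (Ct β G) (fun γ => g (min γ β)) :=
  fun p i => h (p.1, LongJames.cut β p.2) i

theorem Rep.ext {G G' : ES L} {g : L → ℝ} (h : Rep G g) (h' : Rep G' g) : G = G' := by
  apply lp.ext
  funext p
  rw [h.eq_incr, h'.eq_incr]

end Basic

section Bot

variable {L : Type u} [LinearOrder L] [OrderBot L]

/-- The sequence jumping from the bottom to `γ`. -/
def two (γ : L) : Mon L := ⟨fun k => if k = 0 then ⊥ else γ, by
  refine monotone_nat_of_le_succ fun k => ?_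
  by_cases hk : k = 0
  · simp [hk]
  · simp [hk]⟩

/-- The evaluation functionals. -/
noncomputable def ev (γ : L) : StrongDual ℝ (ES L) := coord (1, two γ) 0

theorem Rep.ev_apply {G : ES L} {g : L → ℝ} (h : Rep G g) (γ : L) : ev γ G = g γ - g ⊥ := by
  have := h (1, two γ) 0
  rw [ev, coord_apply, this]
  simp [two]

theorem stp_bot (α : L) : stp α ⊥ = 0 := by
  unfold stp
  rw [if_neg not_lt_bot]

theorem ev_St (α γ : L) : ev γ (St α) = stp α γ := by
  rw [(rep_St α).ev_apply, stp_bot, sub_zero]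

variable (L)

/-- The span of the steps. -/
noncomputable def SpanSt : Submodule ℝ (ES L) := Submodule.span ℝ (range (St (L := L)))

/-- The James type space. -/
noncomputable def JS : Submodule ℝ (ES L) := (SpanSt L).topologicalClosure

variable {L}

theorem St_mem_span (α : L) : St α ∈ SpanSt L := Submodule.subset_span ⟨α, rfl⟩

theorem span_le : SpanSt L ≤ JS L := Submodule.le_topologicalClosure _

theorem St_mem (α : L) : St α ∈ JS L := span_le (St_mem_span α)

/-- Continuous linear maps agreeing on the steps agree on the James space. -/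
theorem eq_on_JS {M : Type*} [NormedAddCommGroup M] [NormedSpace ℝ M] {f g : ES L →L[ℝ] M}
    (h : ∀ α, f (St α) = g (St α)) {x : ES L} (hx : x ∈ JS L) : f x = g x := by
  have h1 : Set.EqOn f g (SpanSt L) := by
    intro y hy
    have : Set.EqOn f.toLinearMap g.toLinearMap (range (St (L := L))) := by
      rintro _ ⟨α, rfl⟩
      exact h α
    exact LinearMap.eqOn_span this hy
  have h2 := h1.closure f.continuous g.continuous
  exact h2 hx

theorem rep_JS {x : ES L} (hx : x ∈ JS L) : Rep x (fun γ => ev γ x) := by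
  intro p i
  have := eq_on_JS (f := coord p i) (g := ev (p.2.1 (i + 1)) - ev (p.2.1 i)) (fun α => by
    rw [coord_apply, ContinuousLinearMap.sub_apply, ev_St, ev_St]
    exact rep_St α p i) hx
  rw [coord_apply, ContinuousLinearMap.sub_apply] at this
  exact this

theorem Ct_bot {x : ES L} (hx : x ∈ JS L) : Ct ⊥ x = 0 := by
  refine eq_on_JS (f := Ct ⊥) (g := 0) (fun α => ?_) hx
  have h1 := (rep_St α).cut ⊥
  have h2 : (fun γ : L => stp α (min γ ⊥)) = 0 := by
    funext γ
    rw [min_bot_right, stp_bot]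
    rfl
  rw [h2] at h1
  exact h1.ext Rep.zero

theorem Ct_top {L : Type u} [LinearOrder L] [OrderTop L] (x : ES L) : Ct ⊤ x = x := by
  apply lp.ext
  funext p
  have : cut ⊤ p.2 = p.2 := by
    apply Subtype.ext
    funext k
    exact min_top_right _
  change x (p.1, cut ⊤ p.2) = x p
  rw [this]

theorem Ct_succ {α β : L} (hαβ : α < β) (hcov : ∀ γ, γ < β → γ ≤ α) {x : ES L} (hx : x ∈ JS L) :
    Ct β x = Ct α x + (ev β x - ev α x) • St α := by
  let g : ES L →L[ℝ] ES L := Ct α + (ev β - ev α).smulRight (St α)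
  have := eq_on_JS (f := Ct β) (g := g) (fun ξ => ?_) hx
  · rw [this]
    rfl
  have h1 := (rep_St ξ).cut β
  have h2 : Rep (g (St ξ)) (fun γ : L => stp ξ (min γ β)) := by
    have h3 := ((rep_St ξ).cut α).add ((rep_St α).smul (stp ξ β - stp ξ α))
    have h4 : g (St ξ) = Ct α (St ξ) + (stp ξ β - stp ξ α) • St α := by
      have h5 : g (St ξ) = Ct α (St ξ) + (ev β (St ξ) - ev α (St ξ)) • St α := rfl
      rw [h5, ev_St, ev_St]
    rw [h4]
    convert h3 using 1
    funext γ
    simp only [Pi.add_apply, Pi.smul_apply, smul_eq_mul]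
    rcases le_or_gt γ α with h | h
    · rw [min_eq_left h, min_eq_left (h.trans hαβ.le)]
      have : stp α γ = 0 := if_neg (not_lt.2 h)
      rw [this]
      ring
    · have h6 : β ≤ γ := by
        by_contra hcon
        exact absurd (hcov γ (not_le.1 hcon)) (not_le.2 h)
      rw [min_eq_right h6, min_eq_right h.le]
      have : stp α γ = 1 := if_pos h
      rw [this]
      ring
  exact h1.ext h2

/-- Elements of the span are functions which are eventually constant at limits. -/
theorem span_const {x : ES L} (hx : x ∈ SpanSt L) {β : L}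
    (hβ : ∀ α, α < β → ∃ γ, α < γ ∧ γ < β) (hβ' : ⊥ < β) :
    ∃ α, α < β ∧ ∀ γ, α ≤ γ → γ ≤ β → ev γ x = ev β x := by
  refine Submodule.span_induction (p := fun x _ => ∃ α, α < β ∧ ∀ γ, α ≤ γ → γ ≤ β →
    ev γ x = ev β x) ?_ ?_ ?_ ?_ hx
  · rintro _ ⟨ξ, rfl⟩
    rcases lt_or_ge ξ β with h | h
    · obtain ⟨γ0, h1, h2⟩ := hβ ξ h
      refine ⟨γ0, h2, fun γ h3 h4 => ?_⟩
      rw [ev_St, ev_St]
      unfold stp
      rw [if_pos (h1.trans_le h3), if_pos h]
    · refine ⟨⊥, hβ', fun γ _ h4 => ?_⟩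
      rw [ev_St, ev_St]
      unfold stp
      rw [if_neg (not_lt.2 (h4.trans h)), if_neg (not_lt.2 h)]
  · exact ⟨⊥, hβ', fun γ _ _ => by rw [map_zero, map_zero]⟩
  · rintro x y _ _ ⟨a, ha, h1⟩ ⟨b, hb, h2⟩
    refine ⟨max a b, max_lt ha hb, fun γ h3 h4 => ?_⟩
    rw [map_add, map_add, h1 γ ((le_max_left _ _).trans h3) h4,
      h2 γ ((le_max_right _ _).trans h3) h4]
  · rintro c x _ ⟨a, ha, h1⟩
    refine ⟨a, ha, fun γ h3 h4 => ?_⟩
    rw [map_smul, map_smul, h1 γ h3 h4]

end Bot

theorem disj_sq (u : ℕ → ℝ) (hu : ∀ i j, i < j → u i = 0 ∨ u j = 0) (n : ℕ) :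
    (∑ i ∈ Finset.range n, u i) ^ 2 = ∑ i ∈ Finset.range n, u i ^ 2 := by
  induction n with
  | zero => simp
  | succ n ih =>
    rw [Finset.sum_range_succ, Finset.sum_range_succ, ← ih]
    by_cases h : u n = 0
    · rw [h]; ring
    · have : ∑ i ∈ Finset.range n, u i = 0 := by
        refine Finset.sum_eq_zero fun i hi => ?_
        exact (hu i n (Finset.mem_range.1 hi)).resolve_right h
      rw [this]; ring

theorem disj_sub (u v : ℕ → ℝ) (hu : ∀ i j, i < j → u i = 0 ∨ u j = 0)
    (hv : ∀ i j, i < j → v i = 0 ∨ v j = 0) (n : ℕ) :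
    (∑ i ∈ Finset.range n, v i - ∑ i ∈ Finset.range n, u i) ^ 2 ≤
      2 * ∑ i ∈ Finset.range n, (v i - u i) ^ 2 := by
  induction n with
  | zero => simp
  | succ n ih =>
    rw [Finset.sum_range_succ, Finset.sum_range_succ, Finset.sum_range_succ]
    have hS : 0 ≤ ∑ i ∈ Finset.range n, (v i - u i) ^ 2 :=
      Finset.sum_nonneg fun i _ => sq_nonneg _
    have hsum0 : ∀ w : ℕ → ℝ, (∀ i j, i < j → w i = 0 ∨ w j = 0) → w n ≠ 0 →
        ∀ i < n, w i = 0 := fun w hw hne i hi => (hw i n hi).resolve_right hne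
    by_cases h1 : u n = 0
    · by_cases h2 : v n = 0
      · rw [h1, h2]
        simpa using ih
      · have h3 := hsum0 v hv h2
        have h4 : ∑ i ∈ Finset.range n, v i = 0 :=
          Finset.sum_eq_zero fun i hi => h3 i (Finset.mem_range.1 hi)
        have h5 : ∑ i ∈ Finset.range n, (v i - u i) ^ 2 = ∑ i ∈ Finset.range n, u i ^ 2 := by
          refine Finset.sum_congr rfl fun i hi => ?_
          rw [h3 i (Finset.mem_range.1 hi)]
          ring
        have h6 := disj_sq u hu n
        rw [h4, h1, h5, ← h6]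
        nlinarith [sq_nonneg (v n + ∑ i ∈ Finset.range n, u i)]
    · have h3 := hsum0 u hu h1
      have h4 : ∑ i ∈ Finset.range n, u i = 0 :=
        Finset.sum_eq_zero fun i hi => h3 i (Finset.mem_range.1 hi)
      by_cases h2 : v n = 0
      · have h5 : ∑ i ∈ Finset.range n, (v i - u i) ^ 2 = ∑ i ∈ Finset.range n, v i ^ 2 := by
          refine Finset.sum_congr rfl fun i hi => ?_
          rw [h3 i (Finset.mem_range.1 hi)]
          ring
        have h6 := disj_sq v hv n
        rw [h4, h2, h5, ← h6]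
        nlinarith [sq_nonneg (u n + ∑ i ∈ Finset.range n, v i)]
      · have h3' := hsum0 v hv h2
        have h4' : ∑ i ∈ Finset.range n, v i = 0 :=
          Finset.sum_eq_zero fun i hi => h3' i (Finset.mem_range.1 hi)
        rw [h4, h4']
        nlinarith [sq_nonneg (v n - u n)]

end Pool.Agent.LongJames
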