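import Pool.Agent.LongJames.Defs

set_option autoImplicit false

/-!
A countably 1-norming Markushevich basis of the dual makes the bidual ball Valdivia.
-/

namespace Pool.Agent.LongJames

open Set Topology

universe u

theorem exists_eval {Z : Type u} [NormedAddCommGroup Z] [NormedSpace ℝ Z]
    (f : StrongDual ℝ (WeakDual ℝ Z)) : ∃ x : Z, ∀ F : WeakDual ℝ Z, f F = F x := by
  obtain ⟨x, hx⟩ := LinearMap.dualEmbedding_surjective (topDualPairing ℝ Z) f
  exact ⟨x, fun F => by rw [← hx]; rfl⟩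

theorem dense_unit {Z : Type u} [NormedAddCommGroup Z] [NormedSpace ℝ Z] {Γ : Type u}
    (z : Γ → Z) (hnorm : ∀ x : Z, IsLUB {r : ℝ | ∃ g : StrongDual ℝ Z,
      {γ | g (z γ) ≠ 0}.Countable ∧ ‖g‖ ≤ 1 ∧ r = |g x|} ‖x‖)
    (F0 : WeakDual ℝ Z) (hF0 : ‖WeakDual.toStrongDual F0‖ ≤ 1) :
    F0 ∈ closure {F : WeakDual ℝ Z | {γ | F (z γ) ≠ 0}.Countable ∧
      ‖WeakDual.toStrongDual F‖ ≤ 1} := by
  set S : Set (WeakDual ℝ Z) := {F : WeakDual ℝ Z | {γ | F (z γ) ≠ 0}.Countable ∧
      ‖WeakDual.toStrongDual F‖ ≤ 1} with hS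
  have hconv : Convex ℝ S := by
    rintro F ⟨hF1, hF2⟩ G ⟨hG1, hG2⟩ a b ha hb hab
    refine ⟨(hF1.union hG1).mono ?_, ?_⟩
    · intro γ hγ
      by_contra hcon
      simp only [mem_union, not_or] at hcon
      have h1 : F (z γ) = 0 := not_not.1 hcon.1
      have h2 : G (z γ) = 0 := not_not.1 hcon.2
      apply hγ
      change a * F (z γ) + b * G (z γ) = 0
      rw [h1, h2]
      ring
    · have h1 : WeakDual.toStrongDual (a • F + b • G) =
          a • WeakDual.toStrongDual F + b • WeakDual.toStrongDual G := rfl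
      rw [h1]
      have h2 := norm_add_le (a • WeakDual.toStrongDual F) (b • WeakDual.toStrongDual G)
      rw [norm_smul, norm_smul, Real.norm_of_nonneg ha, Real.norm_of_nonneg hb] at h2
      nlinarith
  by_contra hcon
  have hlc : LocallyConvexSpace ℝ (WeakDual ℝ Z) :=
    WeakBilin.locallyConvexSpace (B := topDualPairing ℝ Z)
  obtain ⟨f, u, hu1, hu2⟩ := geometric_hahn_banach_closed_point hconv.closure isClosed_closure hcon
  obtain ⟨x, hx⟩ := exists_eval f
  have h1 : ‖x‖ ≤ u := by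
    refine (hnorm x).2 ?_
    rintro _ ⟨g, hg1, hg2, rfl⟩
    have h2 : WeakDual.toStrongDual.symm g ∈ S := ⟨hg1, hg2⟩
    have h3 : WeakDual.toStrongDual.symm (-g) ∈ S := by
      refine ⟨hg1.mono ?_, ?_⟩
      · intro γ hγ h4
        apply hγ
        change -(g (z γ)) = 0
        rw [h4, neg_zero]
      · change ‖-g‖ ≤ 1
        rwa [norm_neg]
    have h4 := hu1 _ (subset_closure h2)
    have h5 := hu1 _ (subset_closure h3)
    rw [hx] at h4 h5
    change g x < u at h4
    change -(g x) < u at h5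
    exact abs_le.2 ⟨by linarith, h4.le⟩
  rw [hx] at hu2
  have h2 : F0 x ≤ ‖x‖ := by
    have h3 : |WeakDual.toStrongDual F0 x| ≤ ‖WeakDual.toStrongDual F0‖ * ‖x‖ :=
      (WeakDual.toStrongDual F0).le_opNorm x
    have h4 : F0 x ≤ |WeakDual.toStrongDual F0 x| := le_abs_self _
    have h5 := norm_nonneg x
    nlinarith
  linarith

theorem valdivia_of_mbasis {Y : Type u} [NormedAddCommGroup Y] [NormedSpace ℝ Y]
    (hM : HasC1NMBasis (StrongDual ℝ Y)) : IsValdivia (DualBall (StrongDual ℝ Y)) := by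
  obtain ⟨Γ, z, f, _, _, hdense, _, hnorm⟩ := hM
  have hcomp : CompactSpace (DualBall (StrongDual ℝ Y)) := by
    have h1 := WeakDual.isCompact_closedBall (𝕜 := ℝ) (E := StrongDual ℝ Y) 0 1
    have h2 : (⇑WeakDual.toStrongDual ⁻¹' Metric.closedBall (0 : StrongDual ℝ (StrongDual ℝ Y)) 1) =
        {F : WeakDual ℝ (StrongDual ℝ Y) | ‖WeakDual.toStrongDual F‖ ≤ 1} := by
      ext F
      exact mem_closedBall_zero_iff (a := WeakDual.toStrongDual F)
    rw [h2] at h1
    exact isCompact_iff_compactSpace.1 h1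
  let h : DualBall (StrongDual ℝ Y) → Γ → ℝ := fun F γ => F.1 (z γ)
  have hc : Continuous h := continuous_pi fun γ =>
    (WeakDual.eval_continuous (z γ)).comp continuous_subtype_val
  have hi : Function.Injective h := by
    intro F G hFG
    have h1 : Set.EqOn (WeakDual.toStrongDual F.1) (WeakDual.toStrongDual G.1)
        (Submodule.span ℝ (range z) : Set (StrongDual ℝ Y)) := by
      intro y hy
      have : Set.EqOn (WeakDual.toStrongDual F.1).toLinearMap
          (WeakDual.toStrongDual G.1).toLinearMap (range z) := by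
        rintro _ ⟨α, rfl⟩
        exact congrFun hFG α
      exact LinearMap.eqOn_span this hy
    have h2 := Continuous.ext_on hdense (WeakDual.toStrongDual F.1).continuous
      (WeakDual.toStrongDual G.1).continuous h1
    apply Subtype.ext
    apply DFunLike.ext
    intro ψ
    exact congrFun h2 ψ
  refine ⟨hcomp, Γ, h, (hc.isClosedEmbedding hi).isEmbedding, ?_⟩
  intro F0
  rw [closure_subtype]
  refine closure_mono ?_ (dense_unit z hnorm F0.1 F0.2)
  rintro F ⟨hF1, hF2⟩
  exact ⟨⟨F, hF2⟩, hF1, rfl⟩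

end Pool.Agent.LongJames
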