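import Pool.Agent.LongJames.Final
import Pool.Agent.LongJames.MBasis

set_option autoImplicit false

/-!
The James type space over the ordinals up to the second uncountable cardinal.
-/

namespace Pool.Agent.LongJames

/-- The least ordinal. -/
noncomputable instance : OrderBot L2 := WellFoundedLT.toOrderBot L2

/-- The long James space. -/
abbrev XJ : Type := JS L2

theorem complete_XJ : CompleteSpace XJ :=
  (Submodule.isClosed_topologicalClosure (SpanSt L2)).completeSpace_coe

theorem asplund_XJ : IsAsplund XJ := (jsLike L2).asplund

theorem not_valdivia_XJ : ¬ HasValdiviaRenorming XJ := by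
  rintro ⟨Y, _, _, ⟨T⟩, h⟩
  exact (jsLike L2).not_valdivia long_L2 T h

theorem no_mbasis_XJ : ¬ HasMBasisRenorming XJ := by
  rintro ⟨Y, _, _, ⟨T⟩, h⟩
  exact (jsLike L2).not_valdivia long_L2 T (valdivia_of_mbasis h)

end Pool.Agent.LongJames
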