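import Mathlib

set_option autoImplicit false

/-!
Order-theoretic preliminaries: well-ordered sets with a top element of large cofinality.
-/

namespace Pool.Agent.LongJames

open Cardinal Set

universe u v

/-- The cardinal `ℵ₂`. -/
noncomputable abbrev kap : Cardinal.{0} := Order.succ ℵ₁

theorem kap_regular : kap.IsRegular := Cardinal.isRegular_succ (aleph0_le_aleph 1)

instance : Fact kap.IsRegular := ⟨kap_regular⟩

theorem aleph0_le_kap : ℵ₀ ≤ kap := kap_regular.aleph0_le

theorem small_of_countable {X : Type u} [Countable X] : HasCardinalLT X kap := by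
  rw [HasCardinalLT]
  have h1 : #X ≤ ℵ₀ := Cardinal.mk_le_aleph0
  have h2 : lift.{0} #X ≤ ℵ₀ := by simp
  refine h2.trans_lt ?_
  have h3 : (ℵ₀ : Cardinal.{0}) < kap := (aleph0_le_aleph 1).trans_lt (Order.lt_succ _)
  have h4 := Cardinal.lift_lt.{0, u}.2 h3
  rwa [Cardinal.lift_aleph0] at h4

theorem small_pi {J : Type u} (hJ : HasCardinalLT J kap) : ∀ n : ℕ, HasCardinalLT (Fin n → J) kap
  | 0 => small_of_countable
  | n + 1 =>
    (hasCardinalLT_prod aleph0_le_kap hJ (small_pi hJ n)).of_surjective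
      (fun p => Fin.cons p.1 p.2) (fun f => ⟨(f 0, Fin.tail f), Fin.cons_self_tail f⟩)

theorem small_finset {J : Type u} (hJ : HasCardinalLT J kap) : HasCardinalLT (Finset J) kap := by
  classical
  refine (hasCardinalLT_sigma (fun n : ℕ => Fin n → J) kap small_of_countable
    (small_pi hJ)).of_surjective (fun p => Finset.univ.image p.2) ?_
  intro F
  refine ⟨⟨F.card, fun i => (F.equivFin.symm i : J)⟩, ?_⟩
  ext x
  simp only [Finset.mem_image, Finset.mem_univ, true_and]
  constructor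
  · rintro ⟨i, rfl⟩
    exact (F.equivFin.symm i).2
  · intro hx
    exact ⟨F.equivFin ⟨x, hx⟩, by simp⟩

/-- `L` looks like the ordinal interval `[0, ω₂]`: sets of at most `ℵ₁` elements below the top
are strictly bounded below the top, and proper initial segments have at most `ℵ₁` elements. -/
structure Long (L : Type u) [LinearOrder L] [OrderTop L] : Prop where
  bdd : ∀ S : Set L, HasCardinalLT S kap → (∀ s ∈ S, s < ⊤) → ∃ η : L, η < ⊤ ∧ ∀ s ∈ S, s < η
  seg : ∀ η : L, η < ⊤ → HasCardinalLT (Iio η) kap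

variable {L : Type u} [LinearOrder L] [OrderTop L]

/-- Countable sets below `ζ` are strictly bounded below `ζ`. -/
def UncCof (ζ : L) : Prop :=
  ∀ S : Set L, S.Countable → (∀ s ∈ S, s < ζ) → ∃ η : L, η < ζ ∧ ∀ s ∈ S, s < η

/-- `ζ` is a limit of elements of `U`. -/
def LimOf (U : Set L) (ζ : L) : Prop := ∀ η : L, η < ζ → ∃ u ∈ U, η < u ∧ u < ζ

/-- A well order of type `ω₁`. -/
abbrev J1 : Type := (ℵ₁ : Cardinal.{0}).ord.ToType

theorem mk_J1 : #J1 = ℵ₁ := by
  rw [Cardinal.mk_toType, Cardinal.card_ord]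

theorem J1_small : HasCardinalLT J1 kap := by
  rw [hasCardinalLT_iff_cardinal_mk_lt, mk_J1]
  exact Order.lt_succ _

theorem J1_bdd (S : Set J1) (hS : S.Countable) : ∃ i, ∀ s ∈ S, s < i := by
  by_contra h
  push Not at h
  have hcof : IsCofinal S := fun i => by
    obtain ⟨s, hs, hle⟩ := h i
    exact ⟨s, hs, hle⟩
  have h1 : Order.cof J1 ≤ #S := Order.cof_le hcof
  rw [Ordinal.cof_toType, Cardinal.isRegular_aleph_one.cof_ord] at h1
  have h2 : #S ≤ ℵ₀ := Cardinal.le_aleph0_iff_set_countable.2 hS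
  have h3 : (ℵ₀ : Cardinal.{0}) < ℵ₁ := Cardinal.aleph0_lt_aleph_one
  exact absurd (h1.trans h2) (not_le.2 h3)

theorem exists_limit [WellFoundedLT L] (hL : Long L) (U : Set L)
    (hU : ∀ ξ : L, ξ < ⊤ → ∃ u ∈ U, ξ < u ∧ u < ⊤) (ξ : L) (hξ : ξ < ⊤) :
    ∃ ζ : L, ξ < ζ ∧ ζ < ⊤ ∧ UncCof ζ ∧ LimOf U ζ := by
  classical
  -- a choice function for upper bounds in `U`
  have key : ∀ S : Set L, HasCardinalLT S kap → (∀ s ∈ S, s < ⊤) →
      ∃ u ∈ U, u < ⊤ ∧ ξ < u ∧ ∀ s ∈ S, s < u := by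
    intro S hS hlt
    obtain ⟨η, hη, hb⟩ := hL.bdd S hS hlt
    obtain ⟨u, hu, h1, h2⟩ := hU (max ξ η) (max_lt hξ hη)
    exact ⟨u, hu, h2, (le_max_left _ _).trans_lt h1,
      fun s hs => (hb s hs).trans ((le_max_right _ _).trans_lt h1)⟩
  choose! g hg1 hg2 hg3 hg4 using key
  let v : J1 → L :=
    WellFoundedLT.fix (motive := fun _ => L)
      (fun i ih => g (Set.range (fun j : Iio i => ih j.1 j.2)))
  have hv : ∀ i, v i = g (Set.range (fun j : Iio i => v j.1)) := by
    intro i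
    exact WellFoundedLT.fix_eq _ i
  have hcard : ∀ i : J1, HasCardinalLT (Set.range (fun j : Iio i => v j.1)) kap := by
    intro i
    have h1 : HasCardinalLT (Iio i) kap := J1_small.of_injective _ Subtype.val_injective
    exact h1.of_surjective _ Set.rangeFactorization_surjective
  have hlt : ∀ i, v i < ⊤ := by
    intro i
    induction i using WellFoundedLT.induction with
    | ind i ih =>
      rw [hv i]
      refine hg2 _ (hcard i) ?_
      rintro _ ⟨j, rfl⟩
      exact ih j.1 j.2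
  have hsmall : ∀ i, ∀ s ∈ Set.range (fun j : Iio i => v j.1), s < ⊤ := by
    rintro i _ ⟨j, rfl⟩
    exact hlt j.1
  have hmono : ∀ j i : J1, j < i → v j < v i := by
    intro j i hji
    rw [hv i]
    exact hg4 _ (hcard i) (hsmall i) _ ⟨⟨j, hji⟩, rfl⟩
  have hmemU : ∀ i, v i ∈ U := by
    intro i
    rw [hv i]
    exact hg1 _ (hcard i) (hsmall i)
  have hgt : ∀ i, ξ < v i := by
    intro i
    rw [hv i]
    exact hg3 _ (hcard i) (hsmall i)
  -- the supremum
  obtain ⟨η, hη, hηb⟩ := hL.bdd (Set.range v)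
    (J1_small.of_surjective _ Set.rangeFactorization_surjective)
    (by rintro _ ⟨i, rfl⟩; exact hlt i)
  let ζ : L := WellFounded.min (wellFounded_lt (α := L)) {x | ∀ i, v i < x}
    ⟨η, fun i => hηb _ ⟨i, rfl⟩⟩
  have hζ : ∀ i, v i < ζ := WellFounded.min_mem (wellFounded_lt (α := L)) {x | ∀ i, v i < x} _
  have hζmin : ∀ x, (∀ i, v i < x) → ζ ≤ x := fun x hx =>
    not_lt.1 (WellFounded.not_lt_min (wellFounded_lt (α := L)) {x | ∀ i, v i < x} hx)
  obtain ⟨i0, _⟩ := J1_bdd ∅ Set.countable_empty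
  -- below `ζ` there are values of `v`
  have hcofinal : ∀ s, s < ζ → ∃ i, s < v i := by
    intro s hs
    have : ¬ ∀ i, v i < s := fun h => absurd (hζmin s h) (not_le.2 hs)
    push Not at this
    obtain ⟨i, hi⟩ := this
    obtain ⟨i', hi'⟩ := J1_bdd {i} (Set.countable_singleton _)
    exact ⟨i', hi.trans_lt (hmono i i' (hi' i rfl))⟩
  refine ⟨ζ, (hgt i0).trans (hζ i0), (hζmin η fun i => hηb _ ⟨i, rfl⟩).trans_lt hη, ?_, ?_⟩
  · intro S hS hSlt
    have : Nonempty J1 := ⟨i0⟩
    choose! f hf using fun (s : L) (hs : s ∈ S) => hcofinal s (hSlt s hs)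
    obtain ⟨i, hi⟩ := J1_bdd (f '' S) (hS.image f)
    exact ⟨v i, hζ i, fun s hs => (hf s hs).trans (hmono _ _ (hi _ ⟨s, hs, rfl⟩))⟩
  · intro s hs
    obtain ⟨i, hi⟩ := hcofinal s hs
    exact ⟨v i, hmemU i, hi, hζ i⟩

/-- The index set used in the counterexample: the ordinals `< ω₂`. -/
abbrev I2 : Type := kap.ord.ToType

/-- The ordinals `≤ ω₂`. -/
abbrev L2 : Type := WithTop I2

theorem mk_I2 : #I2 = kap := by
  rw [Cardinal.mk_toType, Cardinal.card_ord]

theorem long_L2 : Long L2 where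
  bdd := by
    intro S hS hlt
    have hcof : Order.cof I2 = kap := by
      rw [Ordinal.cof_toType, kap_regular.cof_ord]
    let S' : Set I2 := {i | (i : L2) ∈ S}
    have hS' : HasCardinalLT S' kap := by
      refine hS.of_injective (fun i : S' => (⟨(i.1 : L2), i.2⟩ : S)) ?_
      intro a b hab
      apply Subtype.ext
      simpa using hab
    rw [hasCardinalLT_iff_cardinal_mk_lt] at hS'
    have hnc : ¬ IsCofinal S' := by
      intro hc
      have := Order.cof_le hc
      rw [hcof] at this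
      exact absurd hS' (not_lt.2 this)
    rw [IsCofinal] at hnc
    push Not at hnc
    obtain ⟨η, hη⟩ := hnc
    refine ⟨(η : L2), WithTop.coe_lt_top η, ?_⟩
    intro s hs
    have hst := hlt s hs
    obtain ⟨i, rfl⟩ := WithTop.ne_top_iff_exists.1 hst.ne
    exact WithTop.coe_lt_coe.2 (not_le.1 fun h => absurd h (not_le.2 (hη i hs)))
  seg := by
    intro η hη
    obtain ⟨i, rfl⟩ := WithTop.ne_top_iff_exists.1 hη.ne
    have h1 : #(Iio i) < kap := by
      have h := Cardinal.mk_Iio_lt i (by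
        rw [mk_I2]
        exact (Ordinal.type_toType kap.ord).symm)
      rwa [mk_I2] at h
    rw [← hasCardinalLT_iff_cardinal_mk_lt] at h1
    refine h1.of_surjective (fun j : Iio i =>
        (⟨(j.1 : L2), WithTop.coe_lt_coe.2 j.2⟩ : Iio (i : L2))) ?_
    rintro ⟨x, hx⟩
    obtain ⟨j, rfl⟩ := WithTop.ne_top_iff_exists.1 (hx.trans (WithTop.coe_lt_top i)).ne
    exact ⟨⟨j, WithTop.coe_lt_coe.1 hx⟩, rfl⟩

end Pool.Agent.LongJames
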